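import Pool.Agent.Helper67.LPath.Fin
import Pool.Agent.Helper37.LPath.CoreB
import Pool.Agent.Helper79.LPath.L1b
import Pool.Agent.Helper51.LPath.L1c
import Pool.Agent.Helper23.LPath.L1d
import Pool.Agent.Helper65.LPath.L1a

/-!
Assembly: from a sound gadget, an edge list and a family of explicit tip paths to a finite
connected simple graph in which `k` longest paths have no common vertex.
-/

namespace Pool.Agent.Helper67.LPath

open Pool.Agent.Helper65.LPath Pool.Agent.Helper51.LPath Pool.Agent.Helper23.LPath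

/-- L1: reduction from weighted core graphs to simple graphs. -/
theorem reduction (n : ℕ) (W : ℕ → ℕ → ℕ) (hW : Core n W) (tips : List ℕ)
    (htl : ∀ t ∈ tips, t < n) (L k : ℕ)
    (up : ∀ l, TipPath W tips l → wt W l ≤ L)
    (P : Fin k → List ℕ) (hP : ∀ i, TipPath W tips (P i) ∧ wt W (P i) = L)
    (hmeet : ∀ i j, ∃ v, v ∈ P i ∧ v ∈ P j)
    (hno : ∀ v, ∃ i, v ∉ P i) :
    ∃ (V : Type) (_ : Fintype V) (G : SimpleGraph V), G.Connected ∧ ¬ PropP k G := by
  classical
  -- bound on the weights
  obtain ⟨B, hB⟩ : ∃ B, ∀ a b, W a b ≤ B := by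
    refine ⟨∑ a ∈ Finset.range n, ∑ b ∈ Finset.range n, W a b, fun a b => ?_⟩
    by_cases h : 0 < W a b
    · have ha := hW.lt a b h
      have hb := hW.lt b a (by rw [hW.symm b a]; exact h)
      calc W a b ≤ ∑ b ∈ Finset.range n, W a b :=
            Finset.single_le_sum (f := fun b => W a b) (fun _ _ => Nat.zero_le _)
              (Finset.mem_range.2 hb)
        _ ≤ _ := Finset.single_le_sum (f := fun a => ∑ b ∈ Finset.range n, W a b)
              (fun _ _ => Nat.zero_le _) (Finset.mem_range.2 ha)
    · omega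
  set T := n * n * (B + 1) + 1 with hTdef
  choose Q hQ1 hQ2 hQ3 hQ4 using fun i => expand n W hW tips T (P i) (hP i).1
  have hlongest : ∀ i, IsLongest (G0 W tips T) (Q i) := by
    intro i
    refine ⟨hQ1 i, fun m hm => ?_⟩
    rw [hQ2 i, (hP i).2]
    exact upper n W hW tips htl L T B up hB (by omega) m hm
  refine component (G0 W tips T)
    (↑(Finset.range n ×ˢ (Finset.range n ×ˢ Finset.range (B + T + 2))) : Set Pt)
    (Finset.finite_toSet _) ?_ k Q hlongest ?_ ?_ ?_ (0, 0, 0)
  · have key : ∀ x y, Step W tips T x y →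
        (x.1 < n ∧ x.2.1 < n ∧ x.2.2 < B + T + 2) ∧ (y.1 < n ∧ y.2.1 < n ∧ y.2.2 < B + T + 2) := by
      rintro x y (⟨a, b, s, hab, hs, rfl, rfl⟩ | ⟨t, ht, s, hs, rfl, rfl⟩)
      · have ha := hW.lt a b (by omega)
        have hb := hW.lt b a (by rw [hW.symm b a]; omega)
        have hBB := hB a b
        constructor
        · unfold pt; split_ifs <;> refine ⟨?_, ?_, ?_⟩ <;> simp only <;> omega
        · unfold pt; split_ifs <;> refine ⟨?_, ?_, ?_⟩ <;> simp only <;> omega
      · have := htl t ht
        refine ⟨⟨?_, ?_, ?_⟩, ⟨?_, ?_, ?_⟩⟩ <;> simp only <;> omega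
    intro x y hxy
    simp only [Finset.coe_product, Finset.coe_range, Set.mem_prod, Set.mem_Iio]
    rcases hxy with h | h
    · exact (key x y h).1
    · exact (key y x h).2
  · intro i; rw [hQ2 i]; omega
  · intro i j
    obtain ⟨v, hv1, hv2⟩ := hmeet i j
    exact ⟨(v, v, 0), hQ4 i v hv1, hQ4 j v hv2⟩
  · intro x
    obtain ⟨i, hi⟩ := hno x.1
    exact ⟨i, fun hx => hi (hQ3 i x hx)⟩


/-- every edge of `E` is an edge of `E'` with at least the same weight -/
def covB (E' : List (ℕ × ℕ × ℕ)) : List (ℕ × ℕ × ℕ) → Bool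
  | [] => true
  | (u, v, c) :: t => cond (Nat.ble c (look2 E' u v)) (covB E' t) false

theorem covB_spec {E' E : List (ℕ × ℕ × ℕ)} (h : covB E' E = true) :
    ∀ u v c, (u, v, c) ∈ E → c ≤ look2 E' u v := by
  induction E with
  | nil => simp
  | cons e t ih =>
    obtain ⟨x, y, z⟩ := e
    have h' : cond (Nat.ble z (look2 E' x y)) (covB E' t) false = true := h
    cases h1 : Nat.ble z (look2 E' x y)
    · rw [h1] at h'; simp at h'
    · rw [h1, cond_true] at h'
      intro u v c hm
      rcases List.mem_cons.1 hm with hm | hm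
      · simp only [Prod.mk.injEq] at hm
        obtain ⟨rfl, rfl, rfl⟩ := hm
        exact Nat.le_of_ble_eq_true h1
      · exact ih h' u v c hm

theorem look2_eq (E : List (ℕ × ℕ × ℕ)) (a b : ℕ) :
    Pool.Agent.Helper37.LPath.look2 E a b = look2 E a b := by
  induction E with
  | nil => rfl
  | cons e t ih =>
    obtain ⟨u, v, c⟩ := e
    show cond ((Nat.beq u a && Nat.beq v b) || (Nat.beq u b && Nat.beq v a)) c
      (Pool.Agent.Helper37.LPath.look2 t a b) =
      cond (Nat.beq u a) (cond (Nat.beq v b) c (look2 t a b))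
      (cond (Nat.beq u b) (cond (Nat.beq v a) c (look2 t a b)) (look2 t a b))
    rw [ih]
    cases h1 : Nat.beq u a <;> cases h2 : Nat.beq v b <;> cases h3 : Nat.beq u b <;>
      cases h4 : Nat.beq v a <;> try rfl
    · exfalso
      rw [Nat.beq_eq] at h1 h3 h4
      rw [← Bool.not_eq_true, Nat.beq_eq] at h2
      omega

/-- names in a list of terminals -/
def allIn : List ℕ → List ℕ → Bool
  | [], _ => true
  | x :: t, ys => cond (memz ys x) (allIn t ys) false

theorem allIn_spec {xs ys : List ℕ} (h : allIn xs ys = true) : ∀ x ∈ xs, x ∈ ys := by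
  induction xs with
  | nil => simp
  | cons x t ih =>
    have h' : cond (memz ys x) (allIn t ys) false = true := h
    cases h1 : memz ys x
    · rw [h1] at h'; simp at h'
    · rw [h1, cond_true] at h'
      intro y hy
      rcases List.mem_cons.1 hy with rfl | hy
      · rwa [memz_iff] at h1
      · exact ih h' y hy

/-- all names are smaller than `n` -/
def allLt (n : ℕ) : List ℕ → Bool
  | [] => true
  | x :: t => cond (Nat.ble n x) false (allLt n t)

theorem allLt_spec {n : ℕ} {xs : List ℕ} (h : allLt n xs = true) : ∀ x ∈ xs, x < n := by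
  induction xs with
  | nil => simp
  | cons x t ih =>
    have h' : cond (Nat.ble n x) false (allLt n t) = true := h
    cases h1 : Nat.ble n x
    · rw [h1, cond_false] at h'
      intro y hy
      rcases List.mem_cons.1 hy with rfl | hy
      · by_contra hh
        have : Nat.ble n y = true := by rw [Nat.ble_eq]; omega
        rw [h1] at this; simp at this
      · exact ih h' y hy
    · rw [h1] at h'; simp at h'

/-- the check of the sound gadget against the data -/
def gdB (g : Gd) (E : List (ℕ × ℕ × ℕ)) (n : ℕ) (tips : List ℕ) (L : ℕ) : Bool :=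
  cond g.ok (cond (covB g.E E) (cond (allIn tips g.D) (cond (chkL L g.T)
    (allLt n tips) false) false) false) false

theorem gdB_spec {g : Gd} {E : List (ℕ × ℕ × ℕ)} {n : ℕ} {tips : List ℕ} {L : ℕ}
    (h : gdB g E n tips L = true) : g.ok = true ∧ covB g.E E = true ∧
      allIn tips g.D = true ∧ chkL L g.T = true ∧ allLt n tips = true := by
  have h' : cond g.ok (cond (covB g.E E) (cond (allIn tips g.D) (cond (chkL L g.T)
    (allLt n tips) false) false) false) false = true := h
  cases h1 : g.ok
  · rw [h1] at h'; simp at h'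
  · cases h2 : covB g.E E
    · rw [h1, h2] at h'; simp at h'
    · cases h3 : allIn tips g.D
      · rw [h1, h2, h3] at h'; simp at h'
      · cases h4 : chkL L g.T
        · rw [h1, h2, h3, h4] at h'; simp at h'
        · rw [h1, h2, h3, h4] at h'
          exact ⟨rfl, rfl, rfl, rfl, h'⟩

theorem assemble (g : Gd) (E : List (ℕ × ℕ × ℕ)) (n : ℕ) (tips : List ℕ) (L : ℕ)
    (PL : List (List ℕ)) (hgB : gdB g E n tips L = true) (hg : g.ok = true → SoundGd g)
    (hcore : Core n (Pool.Agent.Helper37.LPath.look2 E))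
    (hfam : Pool.Agent.Helper37.LPath.famB (Pool.Agent.Helper37.LPath.look2 E) tips L PL = true) :
    ∃ (V : Type) (_ : Fintype V) (G : SimpleGraph V),
      G.Connected ∧ ¬ PropP PL.length G := by
  obtain ⟨h0, h1, h2, h3, h4⟩ := gdB_spec hgB
  obtain ⟨f1, f2, f3⟩ := Pool.Agent.Helper37.LPath.famB_sound _ _ _ _ hfam
  refine reduction n (Pool.Agent.Helper37.LPath.look2 E) hcore tips (allLt_spec h4) L PL.length
    ?_ (fun i => PL.get i) f1 f2 f3
  have hW : Pool.Agent.Helper37.LPath.look2 E = look2 E := by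
    funext a b; exact look2_eq E a b
  rw [hW]
  exact up_of_gd' (hg h0) (allIn_spec h2) h3 (by
    intro a b hab
    rcases look2_mem E a b hab with hm | hm
    · have hc := covB_spec h1 _ _ _ hm
      refine ⟨look2 g.E a b, hc, ?_⟩
      exact look2_mem g.E a b (lt_of_lt_of_le hab hc)
    · have hc := covB_spec h1 _ _ _ hm
      have hc' : look2 E a b ≤ look2 g.E a b := by
        rw [look2_symm g.E a b]; exact hc
      exact ⟨look2 g.E a b, hc', look2_mem g.E a b (lt_of_lt_of_le hab hc')⟩)

end Pool.Agent.Helper67.LPath
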