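import Pool.Agent.Helper67.LPath.Asm
import Pool.Agent.Helper37.LPath.K6Chain

/-!
Six longest paths without a common vertex: the gadget computation for the chain of eight
copies of the cubic fragment with 14 vertices (data: Helper37.LPath.K6Chain).
-/

namespace Pool.Agent.Helper67.LPath.C6

open Tm

/-- the fragment -/
def tF : Tm :=
    (fg 2 (un (un (fg 8 (un (un (fg 1 (un (fg 7 (un (un (fg 13 (un (fg 12 (un (un (fg 5 (un (un (fg
    3 (un (un (fg 9 (un (un (fg 0 (un (un (edge 0 9 128) (edge 0 11 2)) (edge 0 3 28))) (edge 4 9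
    2)) (edge 5 9 28))) (edge 3 12 2)) (edge 1 3 100))) (edge 5 7 100)) (edge 5 13 2))) (edge 12 13
    20)) (edge 10 12 48))) (edge 6 13 48))) (edge 1 7 72)) (edge 7 8 2))) (edge 1 2 2))) (edge 8 11
    4)) (edge 8 10 124))) (edge 2 4 4)) (edge 2 6 124)))

def gF : Gd := tF.eval

/-- append one copy (at offset `o + 16`) through wires at the names `x`, `y` -/
def stepT (g : Gd) (o x cx y cy : ℕ) : Gd :=
  (fg (y + o + 16) (fg (x + o + 16)
    (un (fg (y + o) (un (fg (x + o) (un (base g) (edge (x + o) (x + o + 16) cx)))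
      (edge (y + o) (y + o + 16) cy))) (off (o + 16) (base gF))))).eval

/-- the chain of eight copies -/
def gC : Gd :=
    stepT (stepT (stepT (stepT (stepT (stepT (stepT gF 0 6 2 11 10) 16 4 10 10 2) 32 6 2 11 10) 48
    4 10 10 2) 64 6 2 11 10) 80 4 10 10 2) 96 6 2 11 10

/-- the chain with the four tips -/
def tH : Tm :=
    (fg 122 (un (fg 116 (un (fg 10 (un (fg 4 (un (base gC) (edge 4 128 5))) (edge 10 129 1))) (edge
    116 130 5))) (edge 122 131 1)))

def gH : Gd := tH.eval

theorem checkF : gF.ok = true := by decide +kernel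

theorem checkC : gC.ok = true := by decide +kernel

theorem checkH : gdB gH Pool.Agent.Helper37.LPath.c6E 132 Pool.Agent.Helper37.LPath.c6Tips 5104
    = true := by
  decide +kernel

theorem fg_ok {n : ℕ} {g : Gd} (h : (Gd.fg n g).ok = true) : g.ok = true := by
  have h' : cond (memz g.D n) g.ok false = true := h
  cases h1 : memz g.D n
  · rw [h1] at h'; simp at h'
  · rw [h1] at h'; exact h'

theorem stepT_sound {g : Gd} {o x cx y cy : ℕ} (h : (stepT g o x cx y cy).ok = true)
    (hg : g.ok = true → SoundGd g) (hF : SoundGd gF) : SoundGd (stepT g o x cx y cy) := by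
  have hok : g.ok = true := by
    have h1 := fg_ok h
    have h2 := fg_ok h1
    have h3 := (Gd.un_ok h2).1
    have h4 := fg_ok h3
    have h5 := (Gd.un_ok h4).1
    have h6 := fg_ok h5
    exact (Gd.un_ok h6).1
  refine Tm.eval_sound _ ?_ h
  exact ⟨⟨⟨hg hok, trivial⟩, trivial⟩, hF⟩

theorem gF_sound : SoundGd gF := by
  refine Tm.eval_sound tF ?_ checkF
  simp only [tF, Tm.Good, and_self]

theorem gC_sound : SoundGd gC := by
  refine stepT_sound checkC (fun h6 => ?_) gF_sound
  refine stepT_sound h6 (fun h5 => ?_) gF_sound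
  refine stepT_sound h5 (fun h4 => ?_) gF_sound
  refine stepT_sound h4 (fun h3 => ?_) gF_sound
  refine stepT_sound h3 (fun h2 => ?_) gF_sound
  refine stepT_sound h2 (fun h1 => ?_) gF_sound
  exact stepT_sound h1 (fun _ => gF_sound) gF_sound

theorem gH_sound (h : gH.ok = true) : SoundGd gH := by
  refine Tm.eval_sound tH ?_ h
  simp only [tH, Tm.Good, and_true]
  exact gC_sound

/-- There is a finite connected graph with six longest paths without a common vertex. -/
theorem six : ∃ (V : Type) (_ : Fintype V) (G : SimpleGraph V), G.Connected ∧ ¬ PropP 6 G :=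
  assemble gH Pool.Agent.Helper37.LPath.c6E 132 Pool.Agent.Helper37.LPath.c6Tips 5104
    Pool.Agent.Helper37.LPath.c6P checkH gH_sound Pool.Agent.Helper37.LPath.c6_core
    Pool.Agent.Helper37.LPath.c6_fam

end Pool.Agent.Helper67.LPath.C6
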