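import Mathlib

/-!
Longest paths: the definitions of the problem (paths as lists of vertices) and of
weighted core graphs on the natural numbers.
-/

namespace Pool.Agent.Helper67.LPath

/-- A path of a graph: a nonempty sequence of distinct vertices in which consecutive
vertices are adjacent. Its length (number of edges) is `l.length - 1`. -/
def IsPathL {V : Type} (G : SimpleGraph V) (l : List V) : Prop :=
  l ≠ [] ∧ l.Nodup ∧ l.IsChain G.Adj

/-- A longest path: a path of maximum length. -/
def IsLongest {V : Type} (G : SimpleGraph V) (l : List V) : Prop :=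
  IsPathL G l ∧ ∀ m : List V, IsPathL G m → m.length ≤ l.length

/-- Property `P_k` of a graph: any `k` longest paths (repetitions allowed) have a common
vertex. -/
def PropP {V : Type} (k : ℕ) (G : SimpleGraph V) : Prop :=
  ∀ P : Fin k → List V, (∀ i, IsLongest G (P i)) → ∃ v, ∀ i, v ∈ P i

/-- weight of a list of core vertices: sum of the weights of consecutive pairs -/
def wt (W : ℕ → ℕ → ℕ) : List ℕ → ℕ
  | [] => 0
  | [_] => 0
  | a :: b :: t => W a b + wt W (b :: t)

/-- a path of the weighted core graph `W` (`W a b = 0`: no edge) -/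
def CPath (W : ℕ → ℕ → ℕ) (l : List ℕ) : Prop :=
  l.Nodup ∧ l.IsChain (fun a b => 0 < W a b)

/-- a core path from a tip to a different tip -/
def TipPath (W : ℕ → ℕ → ℕ) (tips : List ℕ) (l : List ℕ) : Prop :=
  CPath W l ∧ (∃ s ∈ tips, ∃ t ∈ tips, s ≠ t ∧ l.head? = some s ∧ l.getLast? = some t)

/-- a weighted core graph with vertices `< n` -/
structure Core (n : ℕ) (W : ℕ → ℕ → ℕ) : Prop where
  symm : ∀ a b, W a b = W b a
  irrefl : ∀ a, W a a = 0
  lt : ∀ a b, 0 < W a b → a < n

end Pool.Agent.Helper67.LPath
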