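import Pool.Agent.Helper67.LPath.Prog
import Pool.Agent.Helper67.LPath.Defs

/-!
From a sound evaluated gadget to the bound on tip-tip core paths.
-/

namespace Pool.Agent.Helper67.LPath

theorem look2_mem (E : List (ℕ × ℕ × ℕ)) (a b : ℕ) (h : 0 < look2 E a b) :
    (a, b, look2 E a b) ∈ E ∨ (b, a, look2 E a b) ∈ E := by
  induction E with
  | nil => simp [look2] at h
  | cons e t ih =>
    obtain ⟨u, v, c⟩ := e
    have key : look2 ((u, v, c) :: t) a b = cond (Nat.beq u a) (cond (Nat.beq v b) c (look2 t a b))
      (cond (Nat.beq u b) (cond (Nat.beq v a) c (look2 t a b)) (look2 t a b)) := rfl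
    have hrest : look2 ((u, v, c) :: t) a b = look2 t a b →
        ((a, b, look2 ((u, v, c) :: t) a b) ∈ (u, v, c) :: t ∨
          (b, a, look2 ((u, v, c) :: t) a b) ∈ (u, v, c) :: t) := by
      intro h1
      rw [h1] at h ⊢
      rcases ih h with h2 | h2
      · exact Or.inl (List.mem_cons_of_mem _ h2)
      · exact Or.inr (List.mem_cons_of_mem _ h2)
    cases h1 : Nat.beq u a
    · cases h2 : Nat.beq u b
      · apply hrest; rw [key, h1, h2]; rfl
      · cases h3 : Nat.beq v a
        · apply hrest; rw [key, h1, h2, h3]; rfl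
        · right
          rw [key, h1, h2, h3]
          rw [Nat.beq_eq] at h2 h3
          subst h2 h3
          exact List.mem_cons_self
    · cases h2 : Nat.beq v b
      · apply hrest; rw [key, h1, h2]; rfl
      · left
        rw [key, h1, h2]
        rw [Nat.beq_eq] at h1 h2
        subst h1 h2
        exact List.mem_cons_self

theorem look2_symm (E : List (ℕ × ℕ × ℕ)) (a b : ℕ) : look2 E a b = look2 E b a := by
  induction E with
  | nil => rfl
  | cons e t ih =>
    obtain ⟨u, v, c⟩ := e
    show cond (Nat.beq u a) (cond (Nat.beq v b) c (look2 t a b))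
      (cond (Nat.beq u b) (cond (Nat.beq v a) c (look2 t a b)) (look2 t a b)) =
      cond (Nat.beq u b) (cond (Nat.beq v a) c (look2 t b a))
      (cond (Nat.beq u a) (cond (Nat.beq v b) c (look2 t b a)) (look2 t b a))
    rw [ih]
    cases h1 : Nat.beq u a <;> cases h2 : Nat.beq u b
    · rfl
    · rfl
    · rfl
    · rw [Nat.beq_eq] at h1 h2
      subst h1; subst h2; rfl

/-- check of the core conditions -/
def coreB (n : ℕ) : List (ℕ × ℕ × ℕ) → Bool
  | [] => true
  | (u, v, _) :: t =>
    cond (Nat.beq u v) false (cond (Nat.ble n u) false (cond (Nat.ble n v) false (coreB n t)))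

theorem coreB_spec {n : ℕ} {E : List (ℕ × ℕ × ℕ)} (h : coreB n E = true) :
    ∀ u v c, (u, v, c) ∈ E → u ≠ v ∧ u < n ∧ v < n := by
  induction E with
  | nil => simp
  | cons e t ih =>
    obtain ⟨x, y, z⟩ := e
    have h' : cond (Nat.beq x y) false
      (cond (Nat.ble n x) false (cond (Nat.ble n y) false (coreB n t))) = true := h
    cases h1 : Nat.beq x y
    · cases h2 : Nat.ble n x
      · cases h3 : Nat.ble n y
        · rw [h1, h2, h3] at h'
          intro u v c hm
          rcases List.mem_cons.1 hm with hm | hm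
          · simp only [Prod.mk.injEq] at hm
            obtain ⟨rfl, rfl, rfl⟩ := hm
            refine ⟨?_, ?_, ?_⟩
            · intro hh; rw [← Nat.beq_eq, h1] at hh; simp at hh
            · by_contra hh
              have : Nat.ble n u = true := by rw [Nat.ble_eq]; omega
              rw [h2] at this; simp at this
            · by_contra hh
              have : Nat.ble n v = true := by rw [Nat.ble_eq]; omega
              rw [h3] at this; simp at this
          · exact ih h' u v c hm
        · rw [h1, h2, h3] at h'; simp at h'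
      · rw [h1, h2] at h'; simp at h'
    · rw [h1] at h'; simp at h'

theorem core_of_check {n : ℕ} {E : List (ℕ × ℕ × ℕ)} (h : coreB n E = true) :
    Core n (look2 E) := by
  have hs := coreB_spec h
  refine ⟨look2_symm E, ?_, ?_⟩
  · intro a
    by_contra hne
    rcases look2_mem E a a (Nat.pos_of_ne_zero hne) with h1 | h1
    · exact (hs _ _ _ h1).1 rfl
    · exact (hs _ _ _ h1).1 rfl
  · intro a b hab
    rcases look2_mem E a b hab with h1 | h1
    · exact (hs _ _ _ h1).2.1
    · exact (hs _ _ _ h1).2.2

/-- a list without repetitions as a path in positions -/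
def pdOf (l : List ℕ) (h : l.Nodup) (hne : l ≠ []) : PD ℕ where
  K := l.length - 1
  p := fun i => l.getD i 0
  inj := by
    intro i j hi hj hij
    have hl : 0 < l.length := List.length_pos_of_ne_nil hne
    have hi' : i < l.length := by omega
    have hj' : j < l.length := by omega
    simp only [List.getD_eq_getElem?_getD, List.getElem?_eq_getElem hi',
      List.getElem?_eq_getElem hj', Option.getD_some] at hij
    exact (List.Nodup.getElem_inj_iff h).1 hij

theorem wt_eq_sum (W : ℕ → ℕ → ℕ) (l : List ℕ) :
    wt W l = ∑ j ∈ Finset.range (l.length - 1), W (l.getD j 0) (l.getD (j + 1) 0) := by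
  induction l with
  | nil => rfl
  | cons a t ih =>
    cases t with
    | nil => rfl
    | cons b t =>
      show W a b + wt W (b :: t) = _
      rw [ih]
      have : (a :: b :: t).length - 1 = ((b :: t).length - 1) + 1 := by simp
      rw [this, Finset.sum_range_succ']
      simp only [List.getD_cons_succ, List.getD_cons_zero]
      ring

/-- every entry with exactly one link has weight at most `L` -/
def chkL (L : ℕ) : List Ent → Bool
  | [] => true
  | ⟨_, [], _, _⟩ :: t => chkL L t
  | ⟨_, [_], _, c⟩ :: t => cond (Nat.ble c L) (chkL L t) false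
  | ⟨_, _ :: _ :: _, _, _⟩ :: t => chkL L t

theorem chkL_spec {L : ℕ} {T : List Ent} (h : chkL L T = true) :
    ∀ e ∈ T, e.ls.length = 1 → e.c ≤ L := by
  induction T with
  | nil => simp
  | cons e t ih =>
    obtain ⟨k, ls, zs, c⟩ := e
    intro e' he' hlen
    match ls, h, he' with
    | [], h, he' =>
      rcases List.mem_cons.1 he' with rfl | he'
      · simp at hlen
      · exact ih h e' he' hlen
    | [x], h, he' =>
      have h' : cond (Nat.ble c L) (chkL L t) false = true := h
      cases h1 : Nat.ble c L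
      · rw [h1] at h'; simp at h'
      · rw [h1, cond_true] at h'
        rcases List.mem_cons.1 he' with rfl | he'
        · exact Nat.le_of_ble_eq_true h1
        · exact ih h' e' he' hlen
    | x :: y :: r, h, he' =>
      rcases List.mem_cons.1 he' with rfl | he'
      · simp at hlen
      · exact ih h e' he' hlen

theorem runs_full {K : ℕ} (hK : 0 < K) {rs : List (ℕ × ℕ)} (hS : Sep K rs)
    (hC : Cov (Finset.range K) rs) : rs.length = 1 := by
  have hall : ∀ r ∈ rs, r = (0, K) := by
    intro r hr
    have h1 := not_mem_of_end hS hC hr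
    have h2 := hS.1 r hr
    have h3 : r.2 = K := by
      by_contra h
      exact h1.1 (Finset.mem_range.2 (by omega))
    have h4 : r.1 = 0 := by
      by_contra h
      exact h1.2 (r.1 - 1) (by omega) (Finset.mem_range.2 (by omega))
    exact Prod.ext h4 h3
  obtain ⟨r0, hr0, -⟩ := (hC 0).1 (Finset.mem_range.2 hK)
  match rs, hS, hall, hr0 with
  | [], _, _, hr0 => simp at hr0
  | [x], _, _, _ => rfl
  | x :: y :: t, hS, hall, _ =>
    exfalso
    have h1 := hall x (by simp)
    have h2 := hall y (by simp)
    have := (List.pairwise_cons.1 hS.2).1 y (by simp)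
    rw [h1, h2] at this
    simp at this

theorem up_of_gd' {g : Gd} (hg : SoundGd g) {tips : List ℕ} {L : ℕ}
    (ht : ∀ t ∈ tips, t ∈ g.D) (hL : chkL L g.T = true) {W : ℕ → ℕ → ℕ}
    (hW : ∀ a b, 0 < W a b → ∃ c, W a b ≤ c ∧ ((a, b, c) ∈ g.E ∨ (b, a, c) ∈ g.E)) :
    ∀ l, TipPath W tips l → wt W l ≤ L := by
  rintro l ⟨⟨hnd, hch⟩, s, hs, t, ht', hst, hh, hla⟩
  have hne : l ≠ [] := by
    intro h; rw [h] at hh; simp at hh
  have hlen : 0 < l.length := List.length_pos_of_ne_nil hne
  have hp0 : l.getD 0 0 = s := by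
    rw [List.getD_eq_getElem?_getD, ← List.head?_eq_getElem?, hh]; rfl
  have hpK : l.getD (l.length - 1) 0 = t := by
    rw [List.getD_eq_getElem?_getD, ← List.getLast?_eq_getElem?, hla]; rfl
  have hK : 0 < l.length - 1 := by
    by_contra h
    have h0 : l.length - 1 = 0 := by omega
    rw [h0, hp0] at hpK
    exact hst hpK
  set P := pdOf l hnd hne with hP
  have hPK : P.K = l.length - 1 := rfl
  have hPp : ∀ i, P.p i = l.getD i 0 := fun i => rfl
  have hadj : ∀ j, j < l.length - 1 → 0 < W (l.getD j 0) (l.getD (j + 1) 0) := by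
    intro j hj
    have h1 : j < l.length := by omega
    have h2 : j + 1 < l.length := by omega
    have := List.isChain_iff_getElem.1 hch j h2
    simpa [List.getD_eq_getElem?_getD, List.getElem?_eq_getElem h1,
      List.getElem?_eq_getElem h2] using this
  have hA : Amb (fun n => n) {n | n ∈ g.D ∨ n ∈ g.F} (fun a b c => (a, b, c) ∈ g.E)
      {n | n ∈ g.D} P (fun j => W (l.getD j 0) (l.getD (j + 1) 0))
      (Finset.range (l.length - 1)) := by
    refine ⟨fun x _ y _ h => h, ?_, ?_⟩
    · intro j hj
      rw [Finset.mem_range] at hj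
      refine ⟨by rw [hPK]; exact hj, ?_⟩
      have h1 := hadj j hj
      obtain ⟨c, hc, h2 | h2⟩ := hW _ _ h1
      · exact ⟨_, _, _, h2, hc, Or.inl ⟨rfl, rfl⟩⟩
      · exact ⟨_, _, _, h2, hc, Or.inr ⟨rfl, rfl⟩⟩
    · intro n _ hnD i hi hpi
      simp only [Set.mem_setOf_eq] at hnD
      rw [hPK] at hi
      rw [hPp] at hpi
      have hi0 : i ≠ 0 := by
        intro h
        rw [h, hp0] at hpi
        have hpi' : s = n := hpi
        exact hnD (hpi' ▸ ht s hs)
      have hiK : i ≠ l.length - 1 := by
        intro h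
        rw [h, hpK] at hpi
        have hpi' : t = n := hpi
        exact hnD (hpi' ▸ ht t ht')
      exact ⟨Finset.mem_range.2 (by omega), i - 1, Finset.mem_range.2 (by omega), by omega⟩
  obtain ⟨e, he, ⟨⟨rs, hM, hSep, hC⟩, -⟩, hc⟩ := hg.2.2 ℕ _ P _ _ hA
  have hlen1 : e.ls.length = 1 := by
    rw [hM.length_eq]
    exact runs_full (K := P.K) (by rw [hPK]; exact hK) hSep (by rw [hPK]; exact hC)
  rw [wt_eq_sum]
  exact le_trans hc (chkL_spec hL e he hlen1)

theorem up_of_gd {g : Gd} (hg : SoundGd g) {tips : List ℕ} {L : ℕ}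
    (ht : ∀ t ∈ tips, t ∈ g.D) (hL : chkL L g.T = true) :
    ∀ l, TipPath (look2 g.E) tips l → wt (look2 g.E) l ≤ L :=
  up_of_gd' hg ht hL (fun a b hab => ⟨_, le_rfl, look2_mem g.E a b hab⟩)

end Pool.Agent.Helper67.LPath
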