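import Pool.Agent.Helper67.LPath.Tab

/-!
Gadget terms and their evaluation.
-/

namespace Pool.Agent.Helper67.LPath

/-- an evaluated gadget: edges, terminals, forgotten names, table, check flag -/
structure Gd where
  E : List (ℕ × ℕ × ℕ)
  D : List ℕ
  F : List ℕ
  T : List Ent
  ok : Bool

/-- no name of the first list is in the second list -/
def disj : List ℕ → List ℕ → Bool
  | [], _ => true
  | x :: t, ys => cond (memz ys x) false (disj t ys)

theorem disj_spec {xs ys : List ℕ} (h : disj xs ys = true) : ∀ x ∈ xs, x ∉ ys := by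
  induction xs with
  | nil => simp
  | cons x t ih =>
    have h' : cond (memz ys x) false (disj t ys) = true := h
    cases h1 : memz ys x
    · rw [h1, cond_false] at h'
      intro y hy
      rcases List.mem_cons.1 hy with rfl | hy
      · rw [← memz_iff, h1]; simp
      · exact ih h' y hy
    · rw [h1] at h'; simp at h'

/-- union of two lists of names -/
def unL : List ℕ → List ℕ → List ℕ
  | [], ys => ys
  | x :: t, ys => cond (memz ys x) (unL t ys) (x :: unL t ys)

theorem mem_unL (xs ys : List ℕ) (z : ℕ) : z ∈ unL xs ys ↔ z ∈ xs ∨ z ∈ ys := by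
  induction xs with
  | nil => simp [unL]
  | cons x t ih =>
    show z ∈ cond (memz ys x) (unL t ys) (x :: unL t ys) ↔ _
    cases h1 : memz ys x
    · rw [cond_false, List.mem_cons, ih, List.mem_cons]; tauto
    · rw [cond_true, ih, List.mem_cons]
      rw [memz_iff] at h1
      constructor
      · tauto
      · rintro ((rfl | h) | h)
        · exact Or.inr h1
        · exact Or.inl h
        · exact Or.inr h

def SoundGd (g : Gd) : Prop :=
  Sound {n | n ∈ g.D ∨ n ∈ g.F} (fun a b c => (a, b, c) ∈ g.E) {n | n ∈ g.D} g.T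

theorem Sound.congr {N N' : Set ℕ} {E E' : ℕ → ℕ → ℕ → Prop} {D D' : Set ℕ} {T : List Ent}
    (h : Sound N E D T) (hN : N = N') (hE : E = E') (hD : D = D') : Sound N' E' D' T := by
  subst hN hE hD; exact h

namespace Gd

def nil : Gd := ⟨[], [], [], [⟨0, [], [], 0⟩], true⟩

def edge (a b c : ℕ) : Gd :=
  ⟨[(a, b, c)], [a, b], [], edgeT a b c, cond (Nat.beq a b) false true⟩

def un (g h : Gd) : Gd :=
  ⟨g.E ++ h.E, unL h.D g.D, h.F ++ g.F, mergeT g.T h.T [],
    cond (disj g.F h.D) (cond (disj g.F h.F) (cond (disj h.F g.D)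
      (cond g.ok h.ok false) false) false) false⟩

def fg (n : ℕ) (g : Gd) : Gd :=
  ⟨g.E, delZ n g.D, n :: g.F, fgtT n g.T [], cond (memz g.D n) g.ok false⟩

def offE (o : ℕ) : List (ℕ × ℕ × ℕ) → List (ℕ × ℕ × ℕ)
  | [] => []
  | (a, b, c) :: t => (a + o, b + o, c) :: offE o t

def off (o : ℕ) (g : Gd) : Gd :=
  ⟨offE o g.E, offZ o g.D, offZ o g.F, offT o g.T, g.ok⟩

theorem mem_offE (o : ℕ) (E : List (ℕ × ℕ × ℕ)) (a b c : ℕ) :
    (a, b, c) ∈ offE o E ↔ ∃ a' b', (a', b', c) ∈ E ∧ a' + o = a ∧ b' + o = b := by
  induction E with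
  | nil => simp [offE]
  | cons e t ih =>
    obtain ⟨x, y, z⟩ := e
    show (a, b, c) ∈ (x + o, y + o, z) :: offE o t ↔ _
    rw [List.mem_cons, ih]
    constructor
    · rintro (h | ⟨a', b', h, h1, h2⟩)
      · simp only [Prod.mk.injEq] at h
        exact ⟨x, y, by rw [h.2.2]; simp, h.1.symm, h.2.1.symm⟩
      · exact ⟨a', b', List.mem_cons_of_mem _ h, h1, h2⟩
    · rintro ⟨a', b', h, rfl, rfl⟩
      rcases List.mem_cons.1 h with h | h
      · simp only [Prod.mk.injEq] at h
        left; rw [h.1, h.2.1, h.2.2]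
      · right; exact ⟨a', b', h, rfl, rfl⟩

theorem nil_sound : SoundGd nil := by
  refine Sound.empty.congr ?_ ?_ ?_
  · ext n; simp [nil]
  · funext a b c; simp [nil]
  · ext n; simp [nil]

theorem edge_sound {a b c : ℕ} (h : (edge a b c).ok = true) : SoundGd (edge a b c) := by
  have hab : a ≠ b := by
    intro hab
    have h' : cond (Nat.beq a b) false true = true := h
    have : Nat.beq a b = true := by rw [Nat.beq_eq]; exact hab
    rw [this] at h'; simp at h'
  refine (Sound.edge (c := c) hab).congr ?_ ?_ ?_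
  · ext n; simp [edge]
  · funext x y z; simp [edge]
  · ext n; simp [edge]

theorem un_ok {g h : Gd} (hok : (un g h).ok = true) :
    g.ok = true ∧ h.ok = true ∧ disj g.F h.D = true ∧ disj g.F h.F = true ∧
      disj h.F g.D = true := by
  have h' : cond (disj g.F h.D) (cond (disj g.F h.F) (cond (disj h.F g.D)
      (cond g.ok h.ok false) false) false) false = true := hok
  cases h1 : disj g.F h.D
  · rw [h1] at h'; simp at h'
  · cases h2 : disj g.F h.F
    · rw [h1, h2] at h'; simp at h'
    · cases h3 : disj h.F g.D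
      · rw [h1, h2, h3] at h'; simp at h'
      · cases h4 : g.ok
        · rw [h1, h2, h3, h4] at h'; simp at h'
        · rw [h1, h2, h3, h4] at h'
          exact ⟨rfl, h', rfl, rfl, rfl⟩

theorem un_sound {g h : Gd} (hg : SoundGd g) (hh : SoundGd h) (hok : (un g h).ok = true) :
    SoundGd (un g h) := by
  obtain ⟨-, -, h1, h2, h3⟩ := un_ok hok
  have h1' := disj_spec h1
  have h2' := disj_spec h2
  have h3' := disj_spec h3
  refine (Sound.union hg hh ?_).congr ?_ ?_ ?_
  · intro n hn1 hn2
    simp only [Set.mem_setOf_eq] at hn1 hn2 ⊢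
    constructor
    · rcases hn1 with h | h
      · exact h
      · rcases hn2 with h4 | h4
        · exact absurd h4 (h1' n h)
        · exact absurd h4 (h2' n h)
    · rcases hn2 with h | h
      · exact h
      · rcases hn1 with h4 | h4
        · exact absurd h4 (h3' n h)
        · exact absurd h (h2' n h4)
  · ext n
    simp only [un, Set.mem_union, Set.mem_setOf_eq, mem_unL, List.mem_append]
    tauto
  · funext a b c
    simp only [un, List.mem_append]
  · ext n
    simp only [un, Set.mem_union, Set.mem_setOf_eq, mem_unL]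
    tauto

theorem fg_sound {n : ℕ} {g : Gd} (hg : SoundGd g) (hok : (fg n g).ok = true) :
    SoundGd (fg n g) := by
  have h' : cond (memz g.D n) g.ok false = true := hok
  have hn : n ∈ g.D := by
    cases h1 : memz g.D n
    · rw [h1] at h'; simp at h'
    · rwa [memz_iff] at h1
  refine (Sound.forget hg (n := n) hn).congr ?_ rfl ?_
  · ext m
    simp only [fg, Set.mem_setOf_eq, mem_delZ, List.mem_cons]
    constructor
    · rintro (h | h)
      · by_cases hm : m = n
        · exact Or.inr (Or.inl hm)
        · exact Or.inl ⟨h, hm⟩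
      · exact Or.inr (Or.inr h)
    · rintro (⟨h, -⟩ | rfl | h)
      · exact Or.inl h
      · exact Or.inl hn
      · exact Or.inr h
  · ext m
    simp only [fg, Set.mem_setOf_eq, mem_delZ, Set.mem_diff, Set.mem_singleton_iff]

theorem off_sound {o : ℕ} {g : Gd} (hg : SoundGd g) : SoundGd (off o g) := by
  refine (Sound.shift hg o).congr ?_ ?_ ?_
  · ext m
    simp only [off, Set.mem_setOf_eq, mem_offZ]
    constructor
    · rintro ⟨x, h | h, h1⟩
      · exact Or.inl ⟨x, h, h1⟩
      · exact Or.inr ⟨x, h, h1⟩
    · rintro (⟨x, h, h1⟩ | ⟨x, h, h1⟩)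
      · exact ⟨x, Or.inl h, h1⟩
      · exact ⟨x, Or.inr h, h1⟩
  · funext a b c
    simp only [off, mem_offE]
  · ext m
    simp only [off, Set.mem_setOf_eq, mem_offZ]

end Gd

/-- gadget terms -/
inductive Tm
  | nil
  | edge (a b c : ℕ)
  | un (s t : Tm)
  | fg (n : ℕ) (t : Tm)
  | off (o : ℕ) (t : Tm)
  | base (g : Gd)

namespace Tm

/-- add the edges of a list one by one, forgetting names given after each edge -/
def eval : Tm → Gd
  | nil => Gd.nil
  | edge a b c => Gd.edge a b c
  | un s t => Gd.un (eval s) (eval t)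
  | fg n t => Gd.fg n (eval t)
  | off o t => Gd.off o (eval t)
  | base g => g

/-- all base gadgets of the term are sound -/
def Good : Tm → Prop
  | nil => True
  | edge _ _ _ => True
  | un s t => Good s ∧ Good t
  | fg _ t => Good t
  | off _ t => Good t
  | base g => SoundGd g

theorem eval_sound (t : Tm) (hg : Good t) (h : (eval t).ok = true) : SoundGd (eval t) := by
  induction t with
  | nil => exact Gd.nil_sound
  | edge a b c => exact Gd.edge_sound h
  | un s t ihs iht =>
    have h' := Gd.un_ok h
    exact Gd.un_sound (ihs hg.1 h'.1) (iht hg.2 h'.2.1) h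
  | fg n t ih =>
    have h' : cond (memz (eval t).D n) (eval t).ok false = true := h
    have hok : (eval t).ok = true := by
      cases h1 : memz (eval t).D n
      · rw [h1] at h'; simp at h'
      · rw [h1] at h'; exact h'
    exact Gd.fg_sound (ih hg hok) h
  | off o t ih => exact Gd.off_sound (ih hg h)
  | base g => exact hg

end Tm

/-! ### final use -/

/-- weight of a pair in an edge list -/
def look2 : List (ℕ × ℕ × ℕ) → ℕ → ℕ → ℕ
  | [], _, _ => 0
  | (u, v, c) :: t, a, b =>
    cond (Nat.beq u a) (cond (Nat.beq v b) c (look2 t a b))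
      (cond (Nat.beq u b) (cond (Nat.beq v a) c (look2 t a b)) (look2 t a b))

end Pool.Agent.Helper67.LPath
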