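import Mathlib

/-!
Semantics of path states: a path in positions `p 0, ..., p K`, a set `S` of
positions (edges `j`, joining `p j` and `p (j+1)`), decomposed in maximal runs, matched
with a list of links between names.
-/

namespace Pool.Agent.Helper67.LPath

/-- a path in positions: `K` edges, distinct vertices `p 0, ..., p K` -/
structure PD (V : Type) where
  K : ℕ
  p : ℕ → V
  inj : ∀ i j, i ≤ K → j ≤ K → p i = p j → i = j

/-- separated nonempty runs (maximal runs) -/
def Sep (K : ℕ) (rs : List (ℕ × ℕ)) : Prop :=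
  (∀ r ∈ rs, r.1 < r.2 ∧ r.2 ≤ K) ∧ rs.Pairwise (fun r s => r.2 < s.1 ∨ s.2 < r.1)

/-- the runs cover exactly `S` -/
def Cov (S : Finset ℕ) (rs : List (ℕ × ℕ)) : Prop :=
  ∀ j, j ∈ S ↔ ∃ r ∈ rs, r.1 ≤ j ∧ j < r.2

variable {V : Type}

/-- the link `l` names the two ends of the run `r` -/
def Mt (φ : ℕ → V) (D : Set ℕ) (P : PD V) (l r : ℕ × ℕ) : Prop :=
  l.1 ∈ D ∧ l.2 ∈ D ∧
    ((φ l.1 = P.p r.1 ∧ φ l.2 = P.p r.2) ∨ (φ l.1 = P.p r.2 ∧ φ l.2 = P.p r.1))

/-- the vertex named `z` is passed by `S` on both sides -/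
def SatV (φ : ℕ → V) (P : PD V) (S : Finset ℕ) (z : ℕ) : Prop :=
  ∃ i, i ≤ P.K ∧ P.p i = φ z ∧ i ∈ S ∧ ∃ j ∈ S, j + 1 = i

/-- the state `(ls, zs)` describes `S` -/
def St (φ : ℕ → V) (D : Set ℕ) (P : PD V) (S : Finset ℕ) (ls : List (ℕ × ℕ))
    (zs : List ℕ) : Prop :=
  (∃ rs : List (ℕ × ℕ), List.Forall₂ (Mt φ D P) ls rs ∧ Sep P.K rs ∧ Cov S rs) ∧
    ∀ z ∈ zs, SatV φ P S z

theorem Sep.perm {K : ℕ} {rs rs' : List (ℕ × ℕ)} (h : Sep K rs) (hp : rs.Perm rs') :
    Sep K rs' := by
  refine ⟨fun r hr => h.1 r (hp.mem_iff.2 hr), ?_⟩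
  refine (hp.pairwise_iff ?_).1 h.2
  intro a b hab
  exact hab.symm

theorem Cov.perm {S : Finset ℕ} {rs rs' : List (ℕ × ℕ)} (h : Cov S rs) (hp : rs.Perm rs') :
    Cov S rs' := by
  intro j
  rw [h j]
  constructor
  · rintro ⟨r, hr, h1⟩; exact ⟨r, hp.mem_iff.1 hr, h1⟩
  · rintro ⟨r, hr, h1⟩; exact ⟨r, hp.mem_iff.2 hr, h1⟩

theorem Mt.swap {φ : ℕ → V} {D : Set ℕ} {P : PD V} {u v : ℕ} {r : ℕ × ℕ}
    (h : Mt φ D P (u, v) r) : Mt φ D P (v, u) r := by
  obtain ⟨h1, h2, h3⟩ := h
  refine ⟨h2, h1, ?_⟩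
  rcases h3 with ⟨h4, h5⟩ | ⟨h4, h5⟩
  · exact Or.inr ⟨h5, h4⟩
  · exact Or.inl ⟨h5, h4⟩

theorem Mt.mono {φ : ℕ → V} {D D' : Set ℕ} {P : PD V} {l r : ℕ × ℕ} (hD : D ⊆ D')
    (h : Mt φ D P l r) : Mt φ D' P l r :=
  ⟨hD h.1, hD h.2.1, h.2.2⟩

/-- gluing the run `[x, y)` -/
theorem glue {K : ℕ} {S : Finset ℕ} {rs : List (ℕ × ℕ)} (hS : Sep K rs) (hC : Cov S rs)
    {x y c d : ℕ} {A B rs2 : List (ℕ × ℕ)} (hxy : x < y) (hyK : y ≤ K)
    (hdis : ∀ j, x ≤ j → j < y → j ∉ S)
    (hA : (A = [] ∧ c = x ∧ ∀ r ∈ rs, r.2 ≠ x) ∨ A = [(c, x)])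
    (hB : (B = [] ∧ d = y ∧ ∀ r ∈ rs, r.1 ≠ y) ∨ B = [(y, d)])
    (hp : List.Perm rs (A ++ (B ++ rs2))) :
    Sep K ((c, d) :: rs2) ∧ Cov (S ∪ Finset.Ico x y) ((c, d) :: rs2) := by
  have hS' := hS.perm hp
  have hC' := hC.perm hp
  -- every other run is disjoint from [x, y)
  have hdisj : ∀ r ∈ rs2, r.2 ≤ x ∨ y ≤ r.1 := by
    intro r hr
    by_contra hcon
    push Not at hcon
    have hr' : r ∈ A ++ (B ++ rs2) := by simp [hr]
    have h1 := hS'.1 r hr'
    have h2 : max r.1 x ∈ S := (hC' _).2 ⟨r, hr', by omega, by omega⟩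
    exact hdis _ (by omega) (by omega) h2
  have hpw := hS'.2
  rw [List.pairwise_append] at hpw
  obtain ⟨-, hpwB, hpwA⟩ := hpw
  rw [List.pairwise_append] at hpwB
  obtain ⟨-, hpw2, hpwB'⟩ := hpwB
  have hcx : c ≤ x := by
    rcases hA with ⟨-, h, -⟩ | h
    · omega
    · have := hS'.1 (c, x) (by simp [h])
      simp only at this; omega
  have hdy : y ≤ d ∧ d ≤ K := by
    rcases hB with ⟨-, h, -⟩ | h
    · omega
    · have := hS'.1 (y, d) (by simp [h])
      simp only at this; omega
  constructor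
  · refine ⟨?_, ?_⟩
    · intro r hr
      rcases List.mem_cons.1 hr with rfl | hr
      · simp only; omega
      · exact hS'.1 r (by simp [hr])
    · rw [List.pairwise_cons]
      refine ⟨?_, hpw2⟩
      intro r hr
      have h1 := hS'.1 r (by simp [hr])
      have h2 := hdisj r hr
      simp only
      rcases h2 with h2 | h2
      · right
        rcases hA with ⟨-, h, h3⟩ | h
        · have := h3 r (hp.mem_iff.2 (by simp [hr]))
          omega
        · have := hpwA (c, x) (by simp [h]) r (by simp [hr])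
          simp only at this
          omega
      · left
        rcases hB with ⟨-, h, h3⟩ | h
        · have := h3 r (hp.mem_iff.2 (by simp [hr]))
          omega
        · have := hpwB' (y, d) (by simp [h]) r hr
          simp only at this
          omega
  · intro j
    rw [Finset.mem_union, hC' j, Finset.mem_Ico]
    constructor
    · rintro (⟨r, hr, h1, h2⟩ | ⟨h1, h2⟩)
      · rw [List.mem_append, List.mem_append] at hr
        rcases hr with hr | hr | hr
        · rcases hA with ⟨h, -⟩ | h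
          · rw [h] at hr; simp at hr
          · rw [h] at hr
            rw [List.mem_singleton] at hr
            subst hr
            exact ⟨(c, d), by simp, by simp only at *; omega, by simp only at *; omega⟩
        · rcases hB with ⟨h, -⟩ | h
          · rw [h] at hr; simp at hr
          · rw [h] at hr
            rw [List.mem_singleton] at hr
            subst hr
            exact ⟨(c, d), by simp, by simp only at *; omega, by simp only at *; omega⟩
        · exact ⟨r, by simp [hr], h1, h2⟩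
      · exact ⟨(c, d), by simp, by simp only; omega, by simp only; omega⟩
    · rintro ⟨r, hr, h1, h2⟩
      rcases List.mem_cons.1 hr with rfl | hr
      · simp only at h1 h2
        by_cases h3 : j < x
        · left
          rcases hA with ⟨-, h, -⟩ | h
          · omega
          · exact ⟨(c, x), by simp [h], h1, h3⟩
        · by_cases h4 : j < y
          · right; omega
          · left
            rcases hB with ⟨-, h, -⟩ | h
            · omega
            · exact ⟨(y, d), by simp [h], by simp only; omega, h2⟩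
      · left; exact ⟨r, by simp [hr], h1, h2⟩

/-! ### the code -/

/-- remove the link at `a`, return its other end (or `a`) -/
def ext : List (ℕ × ℕ) → ℕ → ℕ × List (ℕ × ℕ)
  | [], a => (a, [])
  | (u, v) :: t, a =>
    cond (Nat.beq u a) (v, t) (cond (Nat.beq v a) (u, t)
      (match ext t a with
        | (m, r) => (m, (u, v) :: r)))

theorem ext_cons (u v : ℕ) (t : List (ℕ × ℕ)) (a : ℕ) :
    ext ((u, v) :: t) a = if u = a then (v, t) else if v = a then (u, t) else
      ((ext t a).1, (u, v) :: (ext t a).2) := by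
  show cond (Nat.beq u a) (v, t) (cond (Nat.beq v a) (u, t) _) = _
  by_cases h1 : u = a
  · rw [if_pos h1]
    have : Nat.beq u a = true := by rw [Nat.beq_eq]; exact h1
    rw [this]; rfl
  · have h1' : Nat.beq u a = false := by
      rw [← Bool.not_eq_true, Nat.beq_eq]; exact h1
    rw [if_neg h1, h1']
    by_cases h2 : v = a
    · have : Nat.beq v a = true := by rw [Nat.beq_eq]; exact h2
      rw [if_pos h2, this]; rfl
    · have h2' : Nat.beq v a = false := by
        rw [← Bool.not_eq_true, Nat.beq_eq]; exact h2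
      rw [if_neg h2, h2']; rfl

theorem ext_spec {φ : ℕ → V} {D : Set ℕ} {P : PD V} (hφ : Set.InjOn φ D)
    {ls rs : List (ℕ × ℕ)} (hM : List.Forall₂ (Mt φ D P) ls rs)
    (hS : ∀ r ∈ rs, r.1 < r.2 ∧ r.2 ≤ P.K)
    {a i : ℕ} (ha : a ∈ D) (hi : i ≤ P.K) (hai : φ a = P.p i) :
    ((ext ls a).1 = a ∧ (ext ls a).2 = ls ∧ ∀ r ∈ rs, r.1 ≠ i ∧ r.2 ≠ i) ∨
    (∃ rs1 r rs2, rs = rs1 ++ r :: rs2 ∧
      List.Forall₂ (Mt φ D P) (ext ls a).2 (rs1 ++ rs2) ∧ (ext ls a).1 ∈ D ∧
      ((r.1 = i ∧ φ (ext ls a).1 = P.p r.2) ∨ (r.2 = i ∧ φ (ext ls a).1 = P.p r.1))) := by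
  induction hM with
  | nil => left; simp [ext]
  | @cons l r ls' rs' hlr hM' ih =>
    obtain ⟨u, v⟩ := l
    have hr := hS r (by simp)
    rw [ext_cons]
    obtain ⟨hu, hv, hm⟩ := hlr
    simp only at hu hv hm
    by_cases h1 : u = a
    · rw [if_pos h1]
      right
      refine ⟨[], r, rs', by simp, hM', hv, ?_⟩
      subst h1
      rcases hm with ⟨h2, h3⟩ | ⟨h2, h3⟩
      · left
        refine ⟨?_, h3⟩
        exact P.inj _ _ (by omega) hi (by rw [← h2, hai])
      · right
        refine ⟨?_, h3⟩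
        exact P.inj _ _ (by omega) hi (by rw [← h2, hai])
    · rw [if_neg h1]
      by_cases h2 : v = a
      · rw [if_pos h2]
        right
        refine ⟨[], r, rs', by simp, hM', hu, ?_⟩
        subst h2
        rcases hm with ⟨h3, h4⟩ | ⟨h3, h4⟩
        · right
          refine ⟨?_, h3⟩
          exact P.inj _ _ (by omega) hi (by rw [← h4, hai])
        · left
          refine ⟨?_, h3⟩
          exact P.inj _ _ (by omega) hi (by rw [← h4, hai])
      · rw [if_neg h2]
        rcases ih (fun r hr => hS r (List.mem_cons_of_mem _ hr)) with ⟨h3, h4, h5⟩ | ⟨rs1, r', rs2, h3, h4, h5, h6⟩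
        · left
          refine ⟨h3, by simp only [h4], ?_⟩
          intro r'' hr''
          rcases List.mem_cons.1 hr'' with rfl | hr''
          · constructor
            · intro h
              rw [← h] at hai
              rcases hm with ⟨h7, h8⟩ | ⟨h7, h8⟩
              · exact h1 (hφ hu ha (by rw [h7, hai]))
              · exact h2 (hφ hv ha (by rw [h8, hai]))
            · intro h
              rw [← h] at hai
              rcases hm with ⟨h7, h8⟩ | ⟨h7, h8⟩
              · exact h2 (hφ hv ha (by rw [h8, hai]))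
              · exact h1 (hφ hu ha (by rw [h7, hai]))
          · exact h5 r'' hr''
        · right
          refine ⟨r :: rs1, r', rs2, by simp [h3], ?_, h5, h6⟩
          simp only [List.cons_append]
          exact List.Forall₂.cons ⟨hu, hv, hm⟩ h4

/-- membership in a list of names -/
def memz : List ℕ → ℕ → Bool
  | [], _ => false
  | z :: t, a => cond (Nat.beq z a) true (memz t a)

theorem memz_iff (zs : List ℕ) (a : ℕ) : memz zs a = true ↔ a ∈ zs := by
  induction zs with
  | nil => simp [memz]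
  | cons z t ih =>
    show cond (Nat.beq z a) true (memz t a) = true ↔ _
    by_cases h : z = a
    · have : Nat.beq z a = true := by rw [Nat.beq_eq]; exact h
      rw [this]; simp [h]
    · have : Nat.beq z a = false := by rw [← Bool.not_eq_true, Nat.beq_eq]; exact h
      rw [this, cond_false, ih]
      simp only [List.mem_cons]
      constructor
      · intro h; exact Or.inr h
      · rintro (h1 | h1)
        · exact absurd h1.symm h
        · exact h1

/-- is `a` an end of a link? -/
def inL : List (ℕ × ℕ) → ℕ → Bool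
  | [], _ => false
  | (u, v) :: t, a => cond (Nat.beq u a) true (cond (Nat.beq v a) true (inL t a))

theorem inL_iff (ls : List (ℕ × ℕ)) (a : ℕ) :
    inL ls a = true ↔ ∃ l ∈ ls, l.1 = a ∨ l.2 = a := by
  induction ls with
  | nil => simp [inL]
  | cons l t ih =>
    obtain ⟨u, v⟩ := l
    show cond (Nat.beq u a) true (cond (Nat.beq v a) true (inL t a)) = true ↔ _
    by_cases h : u = a
    · have : Nat.beq u a = true := by rw [Nat.beq_eq]; exact h
      rw [this]; simp [h]
    · have : Nat.beq u a = false := by rw [← Bool.not_eq_true, Nat.beq_eq]; exact h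
      rw [this, cond_false]
      by_cases h2 : v = a
      · have : Nat.beq v a = true := by rw [Nat.beq_eq]; exact h2
        rw [this]; simp [h2]
      · have : Nat.beq v a = false := by rw [← Bool.not_eq_true, Nat.beq_eq]; exact h2
        rw [this, cond_false, ih]
        simp [h, h2]

/-- insert a link in a sorted list -/
def insL (a b : ℕ) : List (ℕ × ℕ) → List (ℕ × ℕ)
  | [] => [(a, b)]
  | (u, v) :: t => cond (Nat.ble a u) ((a, b) :: (u, v) :: t) ((u, v) :: insL a b t)

theorem insL_perm (a b : ℕ) (ls : List (ℕ × ℕ)) : (insL a b ls).Perm ((a, b) :: ls) := by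
  induction ls with
  | nil => exact List.Perm.refl _
  | cons l t ih =>
    obtain ⟨u, v⟩ := l
    show (cond (Nat.ble a u) ((a, b) :: (u, v) :: t) ((u, v) :: insL a b t)).Perm _
    cases Nat.ble a u
    · rw [cond_false]
      exact (ih.cons _).trans (List.Perm.swap _ _ _)
    · rw [cond_true]

/-- insert a link, oriented -/
def insO (a b : ℕ) (ls : List (ℕ × ℕ)) : List (ℕ × ℕ) :=
  cond (Nat.ble a b) (insL a b ls) (insL b a ls)

/-- insert a name in a sorted list -/
def insZ (a : ℕ) : List ℕ → List ℕ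
  | [] => [a]
  | z :: t => cond (Nat.ble a z) (a :: z :: t) (z :: insZ a t)

theorem mem_insZ (a z : ℕ) (zs : List ℕ) : z ∈ insZ a zs ↔ z = a ∨ z ∈ zs := by
  induction zs with
  | nil => simp [insZ]
  | cons u t ih =>
    show z ∈ cond (Nat.ble a u) (a :: u :: t) (u :: insZ a t) ↔ _
    cases Nat.ble a u
    · rw [cond_false, List.mem_cons, ih, List.mem_cons]; tauto
    · rw [cond_true]; simp

/-- add the link `a b` -/
def addL (ls : List (ℕ × ℕ)) (zs : List ℕ) (a b : ℕ) : Option (List (ℕ × ℕ) × List ℕ) :=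
  match ext ls a with
  | (ma, r1) =>
    match ext r1 b with
    | (mb, r2) =>
      cond (Nat.beq ma b) none
        (cond (memz zs a) none
          (cond (memz zs b) none
            (some (insO ma mb r2,
              cond (Nat.beq mb b) (cond (Nat.beq ma a) zs (insZ a zs))
                (insZ b (cond (Nat.beq ma a) zs (insZ a zs)))))))

theorem forall2_insO {φ : ℕ → V} {D : Set ℕ} {P : PD V} {ls rs : List (ℕ × ℕ)} {a b : ℕ}
    {r : ℕ × ℕ} (h : List.Forall₂ (Mt φ D P) ls rs) (hr : Mt φ D P (a, b) r) :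
    ∃ rs', List.Forall₂ (Mt φ D P) (insO a b ls) rs' ∧ rs'.Perm (r :: rs) := by
  have main : ∀ u v, Mt φ D P (u, v) r →
      ∃ rs', List.Forall₂ (Mt φ D P) (insL u v ls) rs' ∧ rs'.Perm (r :: rs) := by
    intro u v huv
    have h1 : List.Forall₂ (Mt φ D P) ((u, v) :: ls) (r :: rs) := List.Forall₂.cons huv h
    obtain ⟨w, hw1, hw2⟩ := List.perm_comp_forall₂ (insL_perm u v ls) h1
    exact ⟨w, hw1, hw2⟩
  unfold insO
  cases Nat.ble a b
  · rw [cond_false]; exact main b a hr.swap
  · rw [cond_true]; exact main a b hr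

end Pool.Agent.Helper67.LPath
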