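import Pool.Agent.Helper67.LPath.Sem

/-!
Adding a link, merging two states, forgetting a name: soundness.
-/

namespace Pool.Agent.Helper67.LPath

variable {V : Type}

theorem not_mem_of_end {K : ℕ} {S : Finset ℕ} {rs : List (ℕ × ℕ)} (hS : Sep K rs)
    (hC : Cov S rs) {r : ℕ × ℕ} (hr : r ∈ rs) : r.2 ∉ S ∧ ∀ j, j + 1 = r.1 → j ∉ S := by
  have hne : ∀ s ∈ rs, s ≠ r → r.2 < s.1 ∨ s.2 < r.1 := by
    intro s hs hsr
    let R : ℕ × ℕ → ℕ × ℕ → Prop := fun a b => a ≠ b → (b.2 < a.1 ∨ a.2 < b.1)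
    haveI hsym : Std.Symm R := ⟨by
      intro a b hab hba
      exact (hab (fun h => hba h.symm)).symm⟩
    have hrefl : ∀ x ∈ rs, R x x := fun x _ h => absurd rfl h
    have hpw : rs.Pairwise R := List.Pairwise.imp (S := R) (fun {a b} h _ => Or.symm h) hS.2
    exact (hpw.forall_of_forall hrefl) hs hr hsr
  have hrr := hS.1 r hr
  constructor
  · intro h
    obtain ⟨s, hs, h1, h2⟩ := (hC _).1 h
    by_cases h3 : s = r
    · subst h3; omega
    · have := hne s hs h3
      omega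
  · intro j hj h
    obtain ⟨s, hs, h1, h2⟩ := (hC _).1 h
    by_cases h3 : s = r
    · subst h3; omega
    · have := hne s hs h3
      have := hS.1 s hs
      omega

theorem end_mem {K : ℕ} {S : Finset ℕ} {rs : List (ℕ × ℕ)} (hS : Sep K rs)
    (hC : Cov S rs) {r : ℕ × ℕ} (hr : r ∈ rs) : r.1 ∈ S ∧ r.2 - 1 ∈ S := by
  have hrr := hS.1 r hr
  exact ⟨(hC _).2 ⟨r, hr, by omega, by omega⟩, (hC _).2 ⟨r, hr, by omega, by omega⟩⟩

theorem addL_eq (ls : List (ℕ × ℕ)) (zs : List ℕ) (a b : ℕ)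
    (h1 : (ext ls a).1 ≠ b) (h2 : a ∉ zs) (h3 : b ∉ zs) :
    ∃ zs', addL ls zs a b =
      some (insO (ext ls a).1 (ext (ext ls a).2 b).1 (ext (ext ls a).2 b).2, zs') ∧
      ∀ z ∈ zs', z ∈ zs ∨ (z = a ∧ (ext ls a).1 ≠ a) ∨ (z = b ∧ (ext (ext ls a).2 b).1 ≠ b) := by
  have e1 : Nat.beq (ext ls a).1 b = false := by
    rw [← Bool.not_eq_true, Nat.beq_eq]; exact h1
  have e2 : memz zs a = false := by rw [← Bool.not_eq_true, memz_iff]; exact h2
  have e3 : memz zs b = false := by rw [← Bool.not_eq_true, memz_iff]; exact h3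
  refine ⟨cond (Nat.beq (ext (ext ls a).2 b).1 b) (cond (Nat.beq (ext ls a).1 a) zs (insZ a zs))
                (insZ b (cond (Nat.beq (ext ls a).1 a) zs (insZ a zs))), ?_, ?_⟩
  · unfold addL
    show cond (Nat.beq (ext ls a).1 b) none _ = _
    rw [e1, e2, e3]
    rfl
  · intro z hz
    have hin : z ∈ cond (Nat.beq (ext ls a).1 a) zs (insZ a zs) →
        z ∈ zs ∨ (z = a ∧ (ext ls a).1 ≠ a) := by
      intro h
      by_cases h5 : (ext ls a).1 = a
      · have : Nat.beq (ext ls a).1 a = true := by rw [Nat.beq_eq]; exact h5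
        rw [this, cond_true] at h
        exact Or.inl h
      · have : Nat.beq (ext ls a).1 a = false := by
          rw [← Bool.not_eq_true, Nat.beq_eq]; exact h5
        rw [this, cond_false, mem_insZ] at h
        rcases h with h | h
        · exact Or.inr ⟨h, h5⟩
        · exact Or.inl h
    by_cases h5 : (ext (ext ls a).2 b).1 = b
    · have : Nat.beq (ext (ext ls a).2 b).1 b = true := by rw [Nat.beq_eq]; exact h5
      rw [this, cond_true] at hz
      rcases hin hz with h | h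
      · exact Or.inl h
      · exact Or.inr (Or.inl h)
    · have : Nat.beq (ext (ext ls a).2 b).1 b = false := by
        rw [← Bool.not_eq_true, Nat.beq_eq]; exact h5
      rw [this, cond_false, mem_insZ] at hz
      rcases hz with h | h
      · exact Or.inr (Or.inr ⟨h, h5⟩)
      · rcases hin h with h | h
        · exact Or.inl h
        · exact Or.inr (Or.inl h)

theorem addL_spec {φ : ℕ → V} {D : Set ℕ} {P : PD V} (hφ : Set.InjOn φ D)
    {S : Finset ℕ} {ls : List (ℕ × ℕ)} {zs : List ℕ} (hst : St φ D P S ls zs)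
    {a b : ℕ} {r : ℕ × ℕ} (hab : Mt φ D P (a, b) r) (hr1 : r.1 < r.2) (hr2 : r.2 ≤ P.K)
    (hdis : ∀ j, r.1 ≤ j → j < r.2 → j ∉ S) :
    ∃ ls' zs', addL ls zs a b = some (ls', zs') ∧
      St φ D P (S ∪ Finset.Ico r.1 r.2) ls' zs' := by
  obtain ⟨x, y⟩ := r
  simp only at hr1 hr2 hdis ⊢
  obtain ⟨⟨rs, hM, hS, hC⟩, hz⟩ := hst
  obtain ⟨ha, hb, hor⟩ := hab
  simp only at ha hb hor
  -- no vertex at x or y is saturated
  have hzn : ∀ z ∈ zs, φ z ≠ P.p x ∧ φ z ≠ P.p y := by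
    intro z hzz
    obtain ⟨i, hi, hpi, hiS, j, hjS, hji⟩ := hz z hzz
    constructor
    · intro h
      have : i = x := P.inj _ _ hi (by omega) (by rw [hpi, h])
      subst this
      exact hdis _ le_rfl hr1 hiS
    · intro h
      have : i = y := P.inj _ _ hi hr2 (by rw [hpi, h])
      subst this
      exact hdis j (by omega) (by omega) hjS
  have haz : a ∉ zs := by
    intro h
    rcases hor with ⟨h1, -⟩ | ⟨h1, -⟩
    · exact (hzn a h).1 h1
    · exact (hzn a h).2 h1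
  have hbz : b ∉ zs := by
    intro h
    rcases hor with ⟨-, h1⟩ | ⟨-, h1⟩
    · exact (hzn b h).2 h1
    · exact (hzn b h).1 h1
  have hzmono : ∀ z, SatV φ P S z → SatV φ P (S ∪ Finset.Ico x y) z := by
    rintro z ⟨i, hi, hpi, hiS, j, hjS, hji⟩
    exact ⟨i, hi, hpi, Finset.mem_union_left _ hiS, j, Finset.mem_union_left _ hjS, hji⟩
  -- run ends at x and y
  have hx1 : ∀ r ∈ rs, r.1 ≠ x := by
    intro r hr h
    have := (end_mem hS hC hr).1
    rw [h] at this
    exact hdis _ le_rfl hr1 this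
  have hy2 : ∀ r ∈ rs, r.2 ≠ y := by
    intro r hr h
    have := (end_mem hS hC hr).2
    rw [h] at this
    exact hdis _ (by omega) (by omega) this
  rcases hor with ⟨hax, hby⟩ | ⟨hay, hbx⟩
  · -- a at x, b at y
    have e1 := ext_spec hφ hM hS.1 ha (i := x) (by omega) hax
    -- describe the first removal
    obtain ⟨A, rs', c, hA, hpA, hM1, hc, hmaD, hmac⟩ : ∃ A rs' c,
        ((A = [] ∧ c = x ∧ ∀ r ∈ rs, r.2 ≠ x) ∨ A = [(c, x)]) ∧ List.Perm rs (A ++ rs') ∧
        List.Forall₂ (Mt φ D P) (ext ls a).2 rs' ∧ φ (ext ls a).1 = P.p c ∧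
        (ext ls a).1 ∈ D ∧ ((ext ls a).1 ≠ a → ∃ j ∈ S, j + 1 = x) := by
      rcases e1 with ⟨h1, h2, h3⟩ | ⟨rs1, r, rs2, h3, h4, h5, h6⟩
      · refine ⟨[], rs, x, Or.inl ⟨rfl, rfl, fun r hr => (h3 r hr).2⟩, by simp, ?_, ?_, ?_, ?_⟩
        · rw [h2]; exact hM
        · rw [h1]; exact hax
        · rw [h1]; exact ha
        · intro h; exact absurd h1 h
      · have hrmem : r ∈ rs := by rw [h3]; simp
        rcases h6 with ⟨h6, -⟩ | ⟨h6, h7⟩
        · exact absurd h6 (hx1 r hrmem)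
        · refine ⟨[(r.1, x)], rs1 ++ rs2, r.1, Or.inr rfl, ?_, h4, h7, h5, ?_⟩
          · rw [h3, ← h6]
            exact List.perm_middle
          · intro _
            have := hS.1 r hrmem
            exact ⟨r.2 - 1, (end_mem hS hC hrmem).2, by omega⟩
    have hS1 : ∀ r ∈ rs', r.1 < r.2 ∧ r.2 ≤ P.K := fun r hr =>
      hS.1 r (hpA.mem_iff.2 (by simp [hr]))
    have e2 := ext_spec hφ hM1 hS1 hb (i := y) (by omega) hby
    obtain ⟨B, rs2, d, hB, hpB, hM2, hd, hmbD, hmbd⟩ : ∃ B rs2 d,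
        ((B = [] ∧ d = y ∧ ∀ r ∈ rs', r.1 ≠ y) ∨ B = [(y, d)]) ∧ List.Perm rs' (B ++ rs2) ∧
        List.Forall₂ (Mt φ D P) (ext (ext ls a).2 b).2 rs2 ∧
        φ (ext (ext ls a).2 b).1 = P.p d ∧
        (ext (ext ls a).2 b).1 ∈ D ∧ ((ext (ext ls a).2 b).1 ≠ b → y ∈ S) := by
      rcases e2 with ⟨h1, h2, h3⟩ | ⟨rs1, r, rs2, h3, h4, h5, h6⟩
      · refine ⟨[], rs', y, Or.inl ⟨rfl, rfl, fun r hr => (h3 r hr).1⟩, by simp, ?_, ?_, ?_, ?_⟩
        · rw [h2]; exact hM1
        · rw [h1]; exact hby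
        · rw [h1]; exact hb
        · intro h; exact absurd h1 h
      · have hrmem' : r ∈ rs' := by rw [h3]; simp
        have hrmem : r ∈ rs := hpA.mem_iff.2 (by simp [hrmem'])
        rcases h6 with ⟨h6, h7⟩ | ⟨h6, -⟩
        · refine ⟨[(y, r.2)], rs1 ++ rs2, r.2, Or.inr rfl, ?_, h4, h7, h5, ?_⟩
          · rw [h3, ← h6]
            exact List.perm_middle
          · intro _
            rw [← h6]; exact (end_mem hS hC hrmem).1
        · exact absurd h6 (hy2 r hrmem)
    have hB' : (B = [] ∧ d = y ∧ ∀ r ∈ rs, r.1 ≠ y) ∨ B = [(y, d)] := by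
      rcases hB with ⟨h1, h2, h3⟩ | h1
      · left
        refine ⟨h1, h2, fun r hr => ?_⟩
        have := hpA.mem_iff.1 hr
        rw [List.mem_append] at this
        rcases this with h4 | h4
        · rcases hA with ⟨h5, -⟩ | h5
          · rw [h5] at h4; simp at h4
          · rw [h5, List.mem_singleton] at h4
            rw [h4]
            have := hS.1 (c, x) (hpA.mem_iff.2 (by simp [h5]))
            simp only at this ⊢
            omega
        · exact h3 r h4
      · exact Or.inr h1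
    have hperm : List.Perm rs (A ++ (B ++ rs2)) := hpA.trans (hpB.append_left A)
    obtain ⟨hS3, hC3⟩ := glue hS hC hr1 hr2 hdis hA hB' hperm
    have hcx : c ≤ x := by
      rcases hA with ⟨-, h, -⟩ | h
      · omega
      · have := hS.1 (c, x) (hpA.mem_iff.2 (by simp [h]))
        simp only at this; omega
    have hmab : (ext ls a).1 ≠ b := by
      intro h
      rw [h, hby] at hc
      have := P.inj _ _ hr2 (by omega) hc
      omega
    obtain ⟨zs', hadd, hzs'⟩ := addL_eq ls zs a b hmab haz hbz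
    have hnew : Mt φ D P ((ext ls a).1, (ext (ext ls a).2 b).1) (c, d) :=
      ⟨hmaD, hmbD, Or.inl ⟨hc, hd⟩⟩
    obtain ⟨rs4, hM4, hp4⟩ := forall2_insO hM2 hnew
    refine ⟨_, zs', hadd, ⟨rs4, hM4, hS3.perm hp4.symm, hC3.perm hp4.symm⟩, ?_⟩
    intro z hzz
    rcases hzs' z hzz with h | ⟨rfl, h⟩ | ⟨rfl, h⟩
    · exact hzmono z (hz z h)
    · obtain ⟨j, hj, hjx⟩ := hmac h
      exact ⟨x, by omega, hax.symm, Finset.mem_union_right _ (Finset.mem_Ico.2 ⟨le_rfl, hr1⟩),
        j, Finset.mem_union_left _ hj, hjx⟩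
    · exact ⟨y, by omega, hby.symm, Finset.mem_union_left _ (hmbd h), y - 1,
        Finset.mem_union_right _ (Finset.mem_Ico.2 ⟨by omega, by omega⟩), by omega⟩
  · -- a at y, b at x
    have e1 := ext_spec hφ hM hS.1 ha (i := y) (by omega) hay
    obtain ⟨B, rs', d, hB, hpB, hM1, hd, hmaD, hmad⟩ : ∃ B rs' d,
        ((B = [] ∧ d = y ∧ ∀ r ∈ rs, r.1 ≠ y) ∨ B = [(y, d)]) ∧ List.Perm rs (B ++ rs') ∧
        List.Forall₂ (Mt φ D P) (ext ls a).2 rs' ∧ φ (ext ls a).1 = P.p d ∧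
        (ext ls a).1 ∈ D ∧ ((ext ls a).1 ≠ a → y ∈ S) := by
      rcases e1 with ⟨h1, h2, h3⟩ | ⟨rs1, r, rs2, h3, h4, h5, h6⟩
      · refine ⟨[], rs, y, Or.inl ⟨rfl, rfl, fun r hr => (h3 r hr).1⟩, by simp, ?_, ?_, ?_, ?_⟩
        · rw [h2]; exact hM
        · rw [h1]; exact hay
        · rw [h1]; exact ha
        · intro h; exact absurd h1 h
      · have hrmem : r ∈ rs := by rw [h3]; simp
        rcases h6 with ⟨h6, h7⟩ | ⟨h6, -⟩
        · refine ⟨[(y, r.2)], rs1 ++ rs2, r.2, Or.inr rfl, ?_, h4, h7, h5, ?_⟩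
          · rw [h3, ← h6]
            exact List.perm_middle
          · intro _
            rw [← h6]; exact (end_mem hS hC hrmem).1
        · exact absurd h6 (hy2 r hrmem)
    have hS1 : ∀ r ∈ rs', r.1 < r.2 ∧ r.2 ≤ P.K := fun r hr =>
      hS.1 r (hpB.mem_iff.2 (by simp [hr]))
    have e2 := ext_spec hφ hM1 hS1 hb (i := x) (by omega) hbx
    obtain ⟨A, rs2, c, hA, hpA, hM2, hc, hmbD, hmbc⟩ : ∃ A rs2 c,
        ((A = [] ∧ c = x ∧ ∀ r ∈ rs', r.2 ≠ x) ∨ A = [(c, x)]) ∧ List.Perm rs' (A ++ rs2) ∧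
        List.Forall₂ (Mt φ D P) (ext (ext ls a).2 b).2 rs2 ∧
        φ (ext (ext ls a).2 b).1 = P.p c ∧
        (ext (ext ls a).2 b).1 ∈ D ∧ ((ext (ext ls a).2 b).1 ≠ b → ∃ j ∈ S, j + 1 = x) := by
      rcases e2 with ⟨h1, h2, h3⟩ | ⟨rs1, r, rs2, h3, h4, h5, h6⟩
      · refine ⟨[], rs', x, Or.inl ⟨rfl, rfl, fun r hr => (h3 r hr).2⟩, by simp, ?_, ?_, ?_, ?_⟩
        · rw [h2]; exact hM1
        · rw [h1]; exact hbx
        · rw [h1]; exact hb
        · intro h; exact absurd h1 h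
      · have hrmem' : r ∈ rs' := by rw [h3]; simp
        have hrmem : r ∈ rs := hpB.mem_iff.2 (by simp [hrmem'])
        rcases h6 with ⟨h6, -⟩ | ⟨h6, h7⟩
        · exact absurd h6 (hx1 r hrmem)
        · refine ⟨[(r.1, x)], rs1 ++ rs2, r.1, Or.inr rfl, ?_, h4, h7, h5, ?_⟩
          · rw [h3, ← h6]
            exact List.perm_middle
          · intro _
            have := hS.1 r hrmem
            exact ⟨r.2 - 1, (end_mem hS hC hrmem).2, by omega⟩
    have hdy : y ≤ d ∧ d ≤ P.K := by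
      rcases hB with ⟨-, h, -⟩ | h
      · omega
      · have := hS.1 (y, d) (hpB.mem_iff.2 (by simp [h]))
        simp only at this; omega
    have hA' : (A = [] ∧ c = x ∧ ∀ r ∈ rs, r.2 ≠ x) ∨ A = [(c, x)] := by
      rcases hA with ⟨h1, h2, h3⟩ | h1
      · left
        refine ⟨h1, h2, fun r hr => ?_⟩
        have := hpB.mem_iff.1 hr
        rw [List.mem_append] at this
        rcases this with h4 | h4
        · rcases hB with ⟨h5, -⟩ | h5
          · rw [h5] at h4; simp at h4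
          · rw [h5, List.mem_singleton] at h4
            rw [h4]
            simp only
            omega
        · exact h3 r h4
      · exact Or.inr h1
    have hperm : List.Perm rs (A ++ (B ++ rs2)) := by
      refine (hpB.trans (hpA.append_left B)).trans ?_
      rw [← List.append_assoc, ← List.append_assoc]
      exact List.Perm.append_right _ List.perm_append_comm
    obtain ⟨hS3, hC3⟩ := glue hS hC hr1 hr2 hdis hA' hB hperm
    have hmab : (ext ls a).1 ≠ b := by
      intro h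
      rw [h, hbx] at hd
      have := P.inj _ _ (by omega) (by omega) hd
      omega
    obtain ⟨zs', hadd, hzs'⟩ := addL_eq ls zs a b hmab haz hbz
    have hnew : Mt φ D P ((ext ls a).1, (ext (ext ls a).2 b).1) (c, d) :=
      ⟨hmaD, hmbD, Or.inr ⟨hd, hc⟩⟩
    obtain ⟨rs4, hM4, hp4⟩ := forall2_insO hM2 hnew
    refine ⟨_, zs', hadd, ⟨rs4, hM4, hS3.perm hp4.symm, hC3.perm hp4.symm⟩, ?_⟩
    intro z hzz
    rcases hzs' z hzz with h | ⟨rfl, h⟩ | ⟨rfl, h⟩
    · exact hzmono z (hz z h)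
    · exact ⟨y, by omega, hay.symm, Finset.mem_union_left _ (hmad h), y - 1,
        Finset.mem_union_right _ (Finset.mem_Ico.2 ⟨by omega, by omega⟩), by omega⟩
    · obtain ⟨j, hj, hjx⟩ := hmbc h
      exact ⟨x, by omega, hbx.symm, Finset.mem_union_right _ (Finset.mem_Ico.2 ⟨le_rfl, hr1⟩),
        j, Finset.mem_union_left _ hj, hjx⟩

end Pool.Agent.Helper67.LPath
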