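import Pool.Agent.Helper67.LPath.Sem2

/-!
Merging two states, forgetting a name, and tables of states with weights.
-/

namespace Pool.Agent.Helper67.LPath

variable {V : Type}

/-- add all links -/
def addAll : List (ℕ × ℕ) → List (ℕ × ℕ) → List ℕ → Option (List (ℕ × ℕ) × List ℕ)
  | [], ls, zs => some (ls, zs)
  | (a, b) :: t, ls, zs =>
    match addL ls zs a b with
    | none => none
    | some (ls', zs') => addAll t ls' zs'

theorem St.congrS {φ : ℕ → V} {D : Set ℕ} {P : PD V} {S S' : Finset ℕ}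
    {ls : List (ℕ × ℕ)} {zs : List ℕ} (h : St φ D P S ls zs) (hS : ∀ j, j ∈ S ↔ j ∈ S') :
    St φ D P S' ls zs := by
  have : S = S' := Finset.ext hS
  rw [← this]; exact h

theorem St.monoD {φ : ℕ → V} {D D' : Set ℕ} {P : PD V} {S : Finset ℕ}
    {ls : List (ℕ × ℕ)} {zs : List ℕ} (h : St φ D P S ls zs) (hD : D ⊆ D') :
    St φ D' P S ls zs := by
  obtain ⟨⟨rs, hM, h1⟩, h2⟩ := h
  exact ⟨⟨rs, hM.imp (fun _ _ h => h.mono hD), h1⟩, h2⟩

theorem addAll_spec {φ : ℕ → V} {D : Set ℕ} {P : PD V} (hφ : Set.InjOn φ D)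
    {ls2 rs2 : List (ℕ × ℕ)} (hM2 : List.Forall₂ (Mt φ D P) ls2 rs2) (hS2 : Sep P.K rs2) :
    ∀ {S : Finset ℕ} {ls : List (ℕ × ℕ)} {zs : List ℕ}, St φ D P S ls zs →
    (∀ r ∈ rs2, ∀ j, r.1 ≤ j → j < r.2 → j ∉ S) →
    ∃ ls' zs', addAll ls2 ls zs = some (ls', zs') ∧
      ∃ S' : Finset ℕ, (∀ j, j ∈ S' ↔ j ∈ S ∨ ∃ r ∈ rs2, r.1 ≤ j ∧ j < r.2) ∧
        St φ D P S' ls' zs' := by
  induction hM2 with
  | nil =>
    intro S ls zs hst _
    exact ⟨ls, zs, rfl, S, by simp, hst⟩
  | @cons l r ls' rs' hlr hM' ih =>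
    intro S ls zs hst hdis
    obtain ⟨a, b⟩ := l
    have hr := hS2.1 r (by simp)
    obtain ⟨ls1, zs1, h1, h2⟩ := addL_spec hφ hst hlr hr.1 hr.2 (hdis r (by simp))
    have hS' : Sep P.K rs' := ⟨fun r hr => hS2.1 r (List.mem_cons_of_mem _ hr),
      (List.pairwise_cons.1 hS2.2).2⟩
    have hsep := (List.pairwise_cons.1 hS2.2).1
    obtain ⟨ls3, zs3, h3, S3, h4, h5⟩ := ih hS' h2 (by
      intro r' hr' j hj1 hj2 hj3
      rw [Finset.mem_union, Finset.mem_Ico] at hj3
      rcases hj3 with hj3 | hj3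
      · exact hdis r' (List.mem_cons_of_mem _ hr') j hj1 hj2 hj3
      · have := hsep r' hr'
        omega)
    refine ⟨ls3, zs3, ?_, S3, ?_, h5⟩
    · show (match addL ls zs a b with
        | none => none
        | some (ls', zs') => addAll _ ls' zs') = _
      rw [h1]; exact h3
    · intro j
      rw [h4 j, Finset.mem_union, Finset.mem_Ico]
      constructor
      · rintro ((h | h) | ⟨r', hr', h⟩)
        · exact Or.inl h
        · exact Or.inr ⟨r, by simp, h⟩
        · exact Or.inr ⟨r', List.mem_cons_of_mem _ hr', h⟩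
      · rintro (h | ⟨r', hr', h⟩)
        · exact Or.inl (Or.inl h)
        · rcases List.mem_cons.1 hr' with rfl | hr'
          · exact Or.inl (Or.inr h)
          · exact Or.inr ⟨r', hr', h⟩

/-- is a name of `zs2` already used in `(ls1, zs1)`? -/
def clash (ls1 : List (ℕ × ℕ)) (zs1 : List ℕ) : List ℕ → Bool
  | [] => false
  | z :: t => cond (memz zs1 z) true (cond (inL ls1 z) true (clash ls1 zs1 t))

theorem clash_false (ls1 : List (ℕ × ℕ)) (zs1 zs2 : List ℕ)
    (h : ∀ z ∈ zs2, z ∉ zs1 ∧ ∀ l ∈ ls1, l.1 ≠ z ∧ l.2 ≠ z) : clash ls1 zs1 zs2 = false := by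
  induction zs2 with
  | nil => rfl
  | cons z t ih =>
    show cond (memz zs1 z) true (cond (inL ls1 z) true (clash ls1 zs1 t)) = false
    have h1 := h z (by simp)
    have e1 : memz zs1 z = false := by rw [← Bool.not_eq_true, memz_iff]; exact h1.1
    have e2 : inL ls1 z = false := by
      rw [← Bool.not_eq_true, inL_iff]
      rintro ⟨l, hl, h2 | h2⟩
      · exact (h1.2 l hl).1 h2
      · exact (h1.2 l hl).2 h2
    rw [e1, e2]
    exact ih (fun z hz => h z (List.mem_cons_of_mem _ hz))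

def insAllZ : List ℕ → List ℕ → List ℕ
  | [], zs => zs
  | z :: t, zs => insZ z (insAllZ t zs)

theorem mem_insAllZ (zs2 zs : List ℕ) (z : ℕ) : z ∈ insAllZ zs2 zs ↔ z ∈ zs2 ∨ z ∈ zs := by
  induction zs2 with
  | nil => simp [insAllZ]
  | cons a t ih =>
    show z ∈ insZ a (insAllZ t zs) ↔ _
    rw [mem_insZ, ih, List.mem_cons]; tauto

/-- merge two states -/
def mergeS (ls1 : List (ℕ × ℕ)) (zs1 : List ℕ) (ls2 : List (ℕ × ℕ)) (zs2 : List ℕ) :
    Option (List (ℕ × ℕ) × List ℕ) :=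
  cond (clash ls1 zs1 zs2) none
    (match addAll ls2 ls1 zs1 with
      | none => none
      | some (ls, zs) => some (ls, insAllZ zs2 zs))

theorem mergeS_spec {φ : ℕ → V} {D : Set ℕ} {P : PD V} (hφ : Set.InjOn φ D)
    {S1 S2 : Finset ℕ} {ls1 ls2 : List (ℕ × ℕ)} {zs1 zs2 : List ℕ}
    (h1 : St φ D P S1 ls1 zs1) (h2 : St φ D P S2 ls2 zs2) (hdis : ∀ j ∈ S1, j ∉ S2) :
    ∃ ls zs, mergeS ls1 zs1 ls2 zs2 = some (ls, zs) ∧ St φ D P (S1 ∪ S2) ls zs := by
  obtain ⟨⟨rs2, hM2, hS2, hC2⟩, hz2⟩ := h2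
  have hcl : clash ls1 zs1 zs2 = false := by
    apply clash_false
    intro z hz
    obtain ⟨i, hi, hpi, hiS, j, hjS, hji⟩ := hz2 z hz
    constructor
    · intro hz1
      obtain ⟨i', hi', hpi', hiS', -⟩ := h1.2 z hz1
      have : i' = i := P.inj _ _ hi' hi (by rw [hpi, hpi'])
      subst this
      exact hdis _ hiS' hiS
    · obtain ⟨⟨rs1, hM1, hS1, hC1⟩, -⟩ := h1
      have key : ∀ r ∈ rs1, r.1 ≠ i ∧ r.2 ≠ i := by
        intro r hr
        have he := end_mem hS1 hC1 hr
        have hr' := hS1.1 r hr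
        constructor
        · intro h
          rw [h] at he
          exact hdis _ he.1 hiS
        · intro h
          have : r.2 - 1 = j := by omega
          rw [this] at he
          exact hdis _ he.2 hjS
      intro l hl
      have : ∃ r ∈ rs1, Mt φ D P l r := by
        clear hS1 hC1 key
        induction hM1 with
        | nil => simp at hl
        | @cons l' r' _ _ hlr _ ih =>
          rcases List.mem_cons.1 hl with rfl | hl
          · exact ⟨r', by simp, hlr⟩
          · obtain ⟨r, hr, h⟩ := ih hl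
            exact ⟨r, List.mem_cons_of_mem _ hr, h⟩
      obtain ⟨r, hr, -, -, hm⟩ := this
      have hk := key r hr
      have hr' := hS1.1 r hr
      constructor
      · intro h
        rw [h, ← hpi] at hm
        rcases hm with ⟨h3, -⟩ | ⟨h3, -⟩
        · exact hk.1 (P.inj _ _ hi (by omega) h3).symm
        · exact hk.2 (P.inj _ _ hi (by omega) h3).symm
      · intro h
        rw [h, ← hpi] at hm
        rcases hm with ⟨-, h3⟩ | ⟨-, h3⟩
        · exact hk.2 (P.inj _ _ hi (by omega) h3).symm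
        · exact hk.1 (P.inj _ _ hi (by omega) h3).symm
  obtain ⟨ls', zs', h3, S', hS', hst⟩ := addAll_spec hφ hM2 hS2 h1 (by
    intro r hr j hj1 hj2 hj
    exact hdis j hj ((hC2 j).2 ⟨r, hr, hj1, hj2⟩))
  have hSS : ∀ j, j ∈ S' ↔ j ∈ S1 ∪ S2 := by
    intro j
    rw [hS' j, Finset.mem_union, hC2 j]
  have hst' := hst.congrS hSS
  refine ⟨ls', insAllZ zs2 zs', ?_, hst'.1, ?_⟩
  · unfold mergeS
    rw [hcl, h3]; rfl
  · intro z hz
    rw [mem_insAllZ] at hz
    rcases hz with hz | hz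
    · obtain ⟨i, hi, hpi, hiS, j, hjS, hji⟩ := hz2 z hz
      exact ⟨i, hi, hpi, Finset.mem_union_right _ hiS, j, Finset.mem_union_right _ hjS, hji⟩
    · exact hst'.2 z hz

/-- remove a name from a list -/
def delZ (n : ℕ) : List ℕ → List ℕ
  | [] => []
  | z :: t => cond (Nat.beq z n) (delZ n t) (z :: delZ n t)

theorem mem_delZ (n z : ℕ) (zs : List ℕ) : z ∈ delZ n zs ↔ z ∈ zs ∧ z ≠ n := by
  induction zs with
  | nil => simp [delZ]
  | cons a t ih =>
    show z ∈ cond (Nat.beq a n) (delZ n t) (a :: delZ n t) ↔ _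
    by_cases h : a = n
    · have : Nat.beq a n = true := by rw [Nat.beq_eq]; exact h
      rw [this, cond_true, ih, List.mem_cons, h]
      constructor
      · rintro ⟨h1, h2⟩; exact ⟨Or.inr h1, h2⟩
      · rintro ⟨h1 | h1, h2⟩
        · exact absurd h1 h2
        · exact ⟨h1, h2⟩
    · have : Nat.beq a n = false := by rw [← Bool.not_eq_true, Nat.beq_eq]; exact h
      rw [this, cond_false, List.mem_cons, ih, List.mem_cons]
      constructor
      · rintro (h1 | ⟨h1, h2⟩)
        · exact ⟨Or.inl h1, by rw [h1]; exact h⟩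
        · exact ⟨Or.inr h1, h2⟩
      · rintro ⟨h1 | h1, h2⟩
        · exact Or.inl h1
        · exact Or.inr ⟨h1, h2⟩

/-- forgetting: a complete vertex is not an end of a link -/
theorem forget_spec {φ : ℕ → V} {D : Set ℕ} {P : PD V}
    {S : Finset ℕ} {ls : List (ℕ × ℕ)} {zs : List ℕ} (h : St φ D P S ls zs) {n : ℕ}
    (hn : ∀ i ≤ P.K, P.p i = φ n → i ∈ S ∧ ∃ j ∈ S, j + 1 = i) :
    inL ls n = false ∧ St φ (D \ {n}) P S ls (delZ n zs) := by
  obtain ⟨⟨rs, hM, hS, hC⟩, hz⟩ := h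
  have hends : ∀ r ∈ rs, P.p r.1 ≠ φ n ∧ P.p r.2 ≠ φ n := by
    intro r hr
    have hne := not_mem_of_end hS hC hr
    have hr' := hS.1 r hr
    constructor
    · intro h
      obtain ⟨-, j, hj, hji⟩ := hn r.1 (by omega) h
      exact hne.2 j hji hj
    · intro h
      exact hne.1 (hn r.2 hr'.2 h).1
  have hnames : ∀ l ∈ ls, l.1 ≠ n ∧ l.2 ≠ n := by
    intro l hl
    have : ∃ r ∈ rs, Mt φ D P l r := by
      clear hS hC hends
      induction hM with
      | nil => simp at hl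
      | @cons l' r' _ _ hlr _ ih =>
        rcases List.mem_cons.1 hl with rfl | hl
        · exact ⟨r', by simp, hlr⟩
        · obtain ⟨r, hr, h⟩ := ih hl
          exact ⟨r, List.mem_cons_of_mem _ hr, h⟩
    obtain ⟨r, hr, -, -, hm⟩ := this
    have := hends r hr
    constructor
    · intro h
      rw [h] at hm
      rcases hm with ⟨h1, -⟩ | ⟨h1, -⟩
      · exact this.1 h1.symm
      · exact this.2 h1.symm
    · intro h
      rw [h] at hm
      rcases hm with ⟨-, h1⟩ | ⟨-, h1⟩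
      · exact this.2 h1.symm
      · exact this.1 h1.symm
  refine ⟨?_, ⟨rs, ?_, hS, hC⟩, ?_⟩
  · rw [← Bool.not_eq_true, inL_iff]
    rintro ⟨l, hl, h | h⟩
    · exact (hnames l hl).1 h
    · exact (hnames l hl).2 h
  · clear hS hC hends
    induction hM with
    | nil => exact List.Forall₂.nil
    | @cons l' r' _ _ hlr _ ih =>
      refine List.Forall₂.cons ?_ (ih (fun l hl => hnames l (List.mem_cons_of_mem _ hl)))
      have := hnames l' (by simp)
      exact ⟨⟨hlr.1, this.1⟩, ⟨hlr.2.1, this.2⟩, hlr.2.2⟩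
  · intro z hzz
    rw [mem_delZ] at hzz
    exact hz z hzz.1

end Pool.Agent.Helper67.LPath
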