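import Pool.Agent.Helper67.LPath.Defs

/-!
The simple graph of a weighted core graph: every core edge `a < b` of weight `W a b` is
subdivided into `W a b` edges, and at every tip a tail with `T` edges is attached.
Vertices are triples: the core vertex `v` is `(v, v, 0)`; the interior point at distance
`s` from `a` on the edge `a < b` is `(a, b, s)`; the tail vertices at the tip `t` are
`(t, t, s)` with `1 ≤ s ≤ T`.
-/

namespace Pool.Agent.Helper67.LPath

abbrev Pt := ℕ × ℕ × ℕ

/-- the point at distance `s` from `a` on the edge `a < b` -/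
def pt (W : ℕ → ℕ → ℕ) (a b s : ℕ) : Pt :=
  if s = 0 then (a, a, 0) else if s = W a b then (b, b, 0) else (a, b, s)

/-- oriented steps of the subdivided graph -/
def Step (W : ℕ → ℕ → ℕ) (tips : List ℕ) (T : ℕ) (x y : Pt) : Prop :=
  (∃ a b s, a < b ∧ s < W a b ∧ x = pt W a b s ∧ y = pt W a b (s + 1)) ∨
  (∃ t ∈ tips, ∃ s, s < T ∧ x = (t, t, s) ∧ y = (t, t, s + 1))

/-- adjacency of the subdivided graph -/
def SAdj (W : ℕ → ℕ → ℕ) (tips : List ℕ) (T : ℕ) (x y : Pt) : Prop :=
  Step W tips T x y ∨ Step W tips T y x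

theorem pt_ne {W : ℕ → ℕ → ℕ} {a b s : ℕ} (hab : a < b) (hs : s < W a b) :
    pt W a b s ≠ pt W a b (s + 1) := by
  unfold pt
  intro h
  have h1 : s + 1 ≠ 0 := by omega
  rw [if_neg h1] at h
  by_cases h0 : s = 0
  · rw [if_pos h0] at h
    by_cases h2 : s + 1 = W a b
    · rw [if_pos h2] at h
      simp only [Prod.mk.injEq] at h
      omega
    · rw [if_neg h2] at h
      simp only [Prod.mk.injEq] at h
      omega
  · rw [if_neg h0, if_neg (by omega)] at h
    by_cases h2 : s + 1 = W a b
    · rw [if_pos h2] at h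
      simp only [Prod.mk.injEq] at h
      omega
    · rw [if_neg h2] at h
      simp only [Prod.mk.injEq] at h
      omega

theorem step_ne {W : ℕ → ℕ → ℕ} {tips : List ℕ} {T : ℕ} {x y : Pt}
    (h : Step W tips T x y) : x ≠ y := by
  rcases h with ⟨a, b, s, hab, hs, rfl, rfl⟩ | ⟨t, ht, s, hs, rfl, rfl⟩
  · exact pt_ne hab hs
  · intro h
    simp only [Prod.mk.injEq] at h
    omega

/-- the subdivided graph with tails of length `T` at the tips -/
def G0 (W : ℕ → ℕ → ℕ) (tips : List ℕ) (T : ℕ) : SimpleGraph Pt where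
  Adj := SAdj W tips T
  symm := ⟨fun _ _ h => h.symm⟩
  loopless := ⟨fun x h => by
    rcases h with h | h
    · exact step_ne h rfl
    · exact step_ne h rfl⟩

end Pool.Agent.Helper67.LPath
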