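import Pool.Agent.Helper67.LPath.Sem3

/-!
Tables of states with weights; soundness of a gadget; union, forget, rename, edge.
-/

namespace Pool.Agent.Helper67.LPath

/-- a table entry: key, links, passed names, weight -/
structure Ent where
  k : ℕ
  ls : List (ℕ × ℕ)
  zs : List ℕ
  c : ℕ

def eqL : List (ℕ × ℕ) → List (ℕ × ℕ) → Bool
  | [], [] => true
  | (a, b) :: s, (c, d) :: t => cond (Nat.beq a c) (cond (Nat.beq b d) (eqL s t) false) false
  | _, _ => false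

theorem eqL_eq : ∀ s t, eqL s t = true → s = t := by
  intro s
  induction s with
  | nil => intro t h; cases t with
    | nil => rfl
    | cons _ _ => simp [eqL] at h
  | cons x s ih =>
    intro t h
    cases t with
    | nil => obtain ⟨a, b⟩ := x; simp [eqL] at h
    | cons y t =>
      obtain ⟨a, b⟩ := x
      obtain ⟨c, d⟩ := y
      have h' : cond (Nat.beq a c) (cond (Nat.beq b d) (eqL s t) false) false = true := h
      cases h1 : Nat.beq a c
      · rw [h1] at h'; simp at h'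
      · cases h2 : Nat.beq b d
        · rw [h1, h2] at h'; simp at h'
        · rw [h1, h2, cond_true, cond_true] at h'
          rw [Nat.beq_eq] at h1 h2
          rw [h1, h2, ih t h']

def eqZ : List ℕ → List ℕ → Bool
  | [], [] => true
  | a :: s, c :: t => cond (Nat.beq a c) (eqZ s t) false
  | _, _ => false

theorem eqZ_eq : ∀ s t, eqZ s t = true → s = t := by
  intro s
  induction s with
  | nil => intro t h; cases t with
    | nil => rfl
    | cons _ _ => simp [eqZ] at h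
  | cons a s ih =>
    intro t h
    cases t with
    | nil => simp [eqZ] at h
    | cons c t =>
      have h' : cond (Nat.beq a c) (eqZ s t) false = true := h
      cases h1 : Nat.beq a c
      · rw [h1] at h'; simp at h'
      · rw [h1, cond_true] at h'
        rw [Nat.beq_eq] at h1
        rw [h1, ih t h']

/-- insert an entry, keeping the larger weight -/
def insE (k : ℕ) (ls : List (ℕ × ℕ)) (zs : List ℕ) (c : ℕ) : List Ent → List Ent
  | [] => [⟨k, ls, zs, c⟩]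
  | ⟨k', ls', zs', c'⟩ :: t =>
    cond (Nat.beq k k')
      (cond (eqL ls ls')
        (cond (eqZ zs zs') (cond (Nat.ble c c') (⟨k', ls', zs', c'⟩ :: t) (⟨k', ls', zs', c⟩ :: t))
          (⟨k', ls', zs', c'⟩ :: insE k ls zs c t))
        (⟨k', ls', zs', c'⟩ :: insE k ls zs c t))
      (⟨k', ls', zs', c'⟩ :: insE k ls zs c t)

/-- the table dominates the state `(ls, zs)` with weight `c` -/
def Dom (T : List Ent) (ls : List (ℕ × ℕ)) (zs : List ℕ) (c : ℕ) : Prop :=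
  ∃ e ∈ T, e.ls = ls ∧ e.zs = zs ∧ c ≤ e.c

theorem insE_cases (k : ℕ) (ls : List (ℕ × ℕ)) (zs : List ℕ) (c : ℕ) (e : Ent) (t : List Ent) :
    (insE k ls zs c (e :: t) = e :: insE k ls zs c t) ∨
    (e.ls = ls ∧ e.zs = zs ∧ ∃ c', insE k ls zs c (e :: t) = ⟨e.k, e.ls, e.zs, c'⟩ :: t ∧
      c ≤ c' ∧ e.c ≤ c') := by
  obtain ⟨k', ls', zs', c'⟩ := e
  show (cond (Nat.beq k k')
      (cond (eqL ls ls')
        (cond (eqZ zs zs') (cond (Nat.ble c c') (⟨k', ls', zs', c'⟩ :: t) (⟨k', ls', zs', c⟩ :: t))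
          (⟨k', ls', zs', c'⟩ :: insE k ls zs c t))
        (⟨k', ls', zs', c'⟩ :: insE k ls zs c t))
      (⟨k', ls', zs', c'⟩ :: insE k ls zs c t) = _) ∨ (_ ∧ _ ∧ ∃ c'', cond (Nat.beq k k')
      (cond (eqL ls ls')
        (cond (eqZ zs zs') (cond (Nat.ble c c') (⟨k', ls', zs', c'⟩ :: t) (⟨k', ls', zs', c⟩ :: t))
          (⟨k', ls', zs', c'⟩ :: insE k ls zs c t))
        (⟨k', ls', zs', c'⟩ :: insE k ls zs c t))
      (⟨k', ls', zs', c'⟩ :: insE k ls zs c t) = _ ∧ _)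
  cases h1 : Nat.beq k k'
  · left; rfl
  · cases h2 : eqL ls ls'
    · left; rfl
    · cases h3 : eqZ zs zs'
      · left; rfl
      · right
        refine ⟨(eqL_eq _ _ h2).symm, (eqZ_eq _ _ h3).symm, ?_⟩
        cases h4 : Nat.ble c c'
        · refine ⟨c, rfl, le_rfl, ?_⟩
          have : ¬ c ≤ c' := by
            rw [← Nat.ble_eq]; rw [h4]; simp
          simp only; omega
        · exact ⟨c', rfl, Nat.le_of_ble_eq_true h4, le_rfl⟩

theorem insE_self (k : ℕ) (ls : List (ℕ × ℕ)) (zs : List ℕ) (c : ℕ) (T : List Ent) :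
    Dom (insE k ls zs c T) ls zs c := by
  induction T with
  | nil => exact ⟨⟨k, ls, zs, c⟩, by simp [insE], rfl, rfl, le_rfl⟩
  | cons e t ih =>
    rcases insE_cases k ls zs c e t with h | ⟨h1, h2, c', h3, h4, h5⟩
    · rw [h]
      obtain ⟨e', he', h'⟩ := ih
      exact ⟨e', List.mem_cons_of_mem _ he', h'⟩
    · rw [h3]
      exact ⟨_, List.mem_cons_self, h1, h2, h4⟩

theorem insE_mono (k : ℕ) (ls : List (ℕ × ℕ)) (zs : List ℕ) (c : ℕ) (T : List Ent)
    {ls' : List (ℕ × ℕ)} {zs' : List ℕ} {c' : ℕ} (h : Dom T ls' zs' c') :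
    Dom (insE k ls zs c T) ls' zs' c' := by
  induction T with
  | nil => obtain ⟨e, he, -⟩ := h; simp at he
  | cons e t ih =>
    obtain ⟨e', he', h'⟩ := h
    rcases insE_cases k ls zs c e t with h | ⟨h1, h2, c2, h3, h4, h5⟩
    · rw [h]
      rcases List.mem_cons.1 he' with rfl | he'
      · exact ⟨e', List.mem_cons_self, h'⟩
      · obtain ⟨e2, he2, h2⟩ := ih ⟨e', he', h'⟩
        exact ⟨e2, List.mem_cons_of_mem _ he2, h2⟩
    · rw [h3]
      rcases List.mem_cons.1 he' with rfl | he'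
      · exact ⟨_, List.mem_cons_self, h'.1, h'.2.1, le_trans h'.2.2 h5⟩
      · exact ⟨e', List.mem_cons_of_mem _ he', h'⟩

/-- numeric key of a state -/
def keyL : ℕ → List (ℕ × ℕ) → ℕ
  | k, [] => k
  | k, (a, b) :: t => keyL ((k * 4096 + a) * 4096 + b) t

def keyZ : ℕ → List ℕ → ℕ
  | k, [] => k
  | k, a :: t => keyZ (k * 4096 + a) t

/-- merge the entry `(ls1, zs1, c1)` with all entries of `T2`, add them to `acc` -/
def mergeE (ls1 : List (ℕ × ℕ)) (zs1 : List ℕ) (c1 : ℕ) : List Ent → List Ent → List Ent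
  | [], acc => acc
  | ⟨_, ls2, zs2, c2⟩ :: t, acc =>
    mergeE ls1 zs1 c1 t
      (match mergeS ls1 zs1 ls2 zs2 with
        | none => acc
        | some (ls, zs) => insE (keyZ (keyL 0 ls) zs) ls zs (c1 + c2) acc)

theorem mergeE_mono (ls1 : List (ℕ × ℕ)) (zs1 : List ℕ) (c1 : ℕ) (T2 : List Ent) :
    ∀ acc {ls' : List (ℕ × ℕ)} {zs' : List ℕ} {c' : ℕ}, Dom acc ls' zs' c' →
    Dom (mergeE ls1 zs1 c1 T2 acc) ls' zs' c' := by
  induction T2 with
  | nil => intro acc _ _ _ h; exact h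
  | cons e t ih =>
    intro acc ls' zs' c' h
    obtain ⟨k, ls2, zs2, c2⟩ := e
    show Dom (mergeE ls1 zs1 c1 t _) ls' zs' c'
    apply ih
    split
    · exact h
    · exact insE_mono _ _ _ _ _ h

theorem mergeE_spec (ls1 : List (ℕ × ℕ)) (zs1 : List ℕ) (c1 : ℕ) (T2 : List Ent) :
    ∀ acc, ∀ e ∈ T2, ∀ ls zs, mergeS ls1 zs1 e.ls e.zs = some (ls, zs) →
    Dom (mergeE ls1 zs1 c1 T2 acc) ls zs (c1 + e.c) := by
  induction T2 with
  | nil => intro acc e he; simp at he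
  | cons e t ih =>
    intro acc e' he' ls zs h
    obtain ⟨k, ls2, zs2, c2⟩ := e
    show Dom (mergeE ls1 zs1 c1 t _) ls zs _
    rcases List.mem_cons.1 he' with rfl | he'
    · apply mergeE_mono
      simp only at h ⊢
      rw [h]
      exact insE_self _ _ _ _ _
    · exact ih _ e' he' ls zs h

def mergeT : List Ent → List Ent → List Ent → List Ent
  | [], _, acc => acc
  | ⟨_, ls1, zs1, c1⟩ :: t, T2, acc => mergeT t T2 (mergeE ls1 zs1 c1 T2 acc)

theorem mergeT_mono (T1 T2 : List Ent) :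
    ∀ acc {ls' : List (ℕ × ℕ)} {zs' : List ℕ} {c' : ℕ}, Dom acc ls' zs' c' →
    Dom (mergeT T1 T2 acc) ls' zs' c' := by
  induction T1 with
  | nil => intro acc _ _ _ h; exact h
  | cons e t ih =>
    intro acc ls' zs' c' h
    obtain ⟨k, ls1, zs1, c1⟩ := e
    show Dom (mergeT t T2 _) ls' zs' c'
    exact ih _ (mergeE_mono _ _ _ _ _ h)

theorem mergeT_spec (T1 T2 : List Ent) :
    ∀ acc, ∀ e1 ∈ T1, ∀ e2 ∈ T2, ∀ ls zs, mergeS e1.ls e1.zs e2.ls e2.zs = some (ls, zs) →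
    Dom (mergeT T1 T2 acc) ls zs (e1.c + e2.c) := by
  induction T1 with
  | nil => intro acc e he; simp at he
  | cons e t ih =>
    intro acc e1 he1 e2 he2 ls zs h
    obtain ⟨k, ls1, zs1, c1⟩ := e
    show Dom (mergeT t T2 _) ls zs _
    rcases List.mem_cons.1 he1 with rfl | he1
    · apply mergeT_mono
      exact mergeE_spec _ _ _ _ _ e2 he2 ls zs h
    · exact ih _ e1 he1 e2 he2 ls zs h

/-- forget the name `n` in a table -/
def fgtT (n : ℕ) : List Ent → List Ent → List Ent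
  | [], acc => acc
  | ⟨_, ls, zs, c⟩ :: t, acc =>
    fgtT n t (cond (inL ls n) acc
      (insE (keyZ (keyL 0 ls) (delZ n zs)) ls (delZ n zs) c acc))

theorem fgtT_mono (n : ℕ) (T : List Ent) :
    ∀ acc {ls' : List (ℕ × ℕ)} {zs' : List ℕ} {c' : ℕ}, Dom acc ls' zs' c' →
    Dom (fgtT n T acc) ls' zs' c' := by
  induction T with
  | nil => intro acc _ _ _ h; exact h
  | cons e t ih =>
    intro acc ls' zs' c' h
    obtain ⟨k, ls1, zs1, c1⟩ := e
    show Dom (fgtT n t _) ls' zs' c'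
    apply ih
    cases inL ls1 n
    · exact insE_mono _ _ _ _ _ h
    · exact h

theorem fgtT_spec (n : ℕ) (T : List Ent) :
    ∀ acc, ∀ e ∈ T, inL e.ls n = false → Dom (fgtT n T acc) e.ls (delZ n e.zs) e.c := by
  induction T with
  | nil => intro acc e he; simp at he
  | cons e t ih =>
    intro acc e' he' h
    obtain ⟨k, ls1, zs1, c1⟩ := e
    show Dom (fgtT n t _) _ _ _
    rcases List.mem_cons.1 he' with rfl | he'
    · apply fgtT_mono
      simp only at h ⊢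
      rw [h]
      exact insE_self _ _ _ _ _
    · exact ih _ e' he' h

/-! ### gadgets -/

variable {V : Type}

/-- an ambient path `P` with a set `S` of edges lying in the gadget with names `N`,
edges `E`, terminals `D` -/
def Amb (φ : ℕ → V) (N : Set ℕ) (E : ℕ → ℕ → ℕ → Prop) (D : Set ℕ) (P : PD V)
    (w : ℕ → ℕ) (S : Finset ℕ) : Prop :=
  Set.InjOn φ N ∧
  (∀ j ∈ S, j < P.K ∧ ∃ a b c, E a b c ∧ w j ≤ c ∧
    ((φ a = P.p j ∧ φ b = P.p (j + 1)) ∨ (φ a = P.p (j + 1) ∧ φ b = P.p j))) ∧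
  (∀ n ∈ N, n ∉ D → ∀ i ≤ P.K, P.p i = φ n → i ∈ S ∧ ∃ j ∈ S, j + 1 = i)

/-- soundness of the table `T` for the gadget -/
def Sound (N : Set ℕ) (E : ℕ → ℕ → ℕ → Prop) (D : Set ℕ) (T : List Ent) : Prop :=
  D ⊆ N ∧ (∀ a b c, E a b c → a ∈ N ∧ b ∈ N) ∧
  ∀ (V : Type) (φ : ℕ → V) (P : PD V) (w : ℕ → ℕ) (S : Finset ℕ), Amb φ N E D P w S →
    ∃ e ∈ T, St φ D P S e.ls e.zs ∧ ∑ j ∈ S, w j ≤ e.c

theorem Sound.ofDom {N : Set ℕ} {E : ℕ → ℕ → ℕ → Prop} {D : Set ℕ} {T : List Ent}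
    (h1 : D ⊆ N) (h2 : ∀ a b c, E a b c → a ∈ N ∧ b ∈ N)
    (h : ∀ (V : Type) (φ : ℕ → V) (P : PD V) (w : ℕ → ℕ) (S : Finset ℕ),
      Amb φ N E D P w S → ∃ ls zs c, Dom T ls zs c ∧ St φ D P S ls zs ∧ ∑ j ∈ S, w j ≤ c) :
    Sound N E D T := by
  refine ⟨h1, h2, fun V φ P w S hA => ?_⟩
  obtain ⟨ls, zs, c, ⟨e, he, h3, h4, h5⟩, h6, h7⟩ := h V φ P w S hA
  exact ⟨e, he, by rw [h3, h4]; exact h6, le_trans h7 h5⟩

theorem Sound.union {N1 N2 : Set ℕ} {E1 E2 : ℕ → ℕ → ℕ → Prop} {D1 D2 : Set ℕ}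
    {T1 T2 : List Ent} (h1 : Sound N1 E1 D1 T1) (h2 : Sound N2 E2 D2 T2)
    (hN : ∀ n, n ∈ N1 → n ∈ N2 → n ∈ D1 ∧ n ∈ D2) :
    Sound (N1 ∪ N2) (fun a b c => E1 a b c ∨ E2 a b c) (D1 ∪ D2) (mergeT T1 T2 []) := by
  classical
  refine Sound.ofDom (Set.union_subset_union h1.1 h2.1) ?_ ?_
  · rintro a b c (h | h)
    · have := h1.2.1 a b c h; exact ⟨Or.inl this.1, Or.inl this.2⟩
    · have := h2.2.1 a b c h; exact ⟨Or.inr this.1, Or.inr this.2⟩
  · intro V φ P w S hA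
    obtain ⟨hinj, hS, hpr⟩ := hA
    set S1 := S.filter (fun j => ∃ a b c, E1 a b c ∧ w j ≤ c ∧
      ((φ a = P.p j ∧ φ b = P.p (j + 1)) ∨ (φ a = P.p (j + 1) ∧ φ b = P.p j))) with hS1
    set S2 := S.filter (fun j => ¬ ∃ a b c, E1 a b c ∧ w j ≤ c ∧
      ((φ a = P.p j ∧ φ b = P.p (j + 1)) ∨ (φ a = P.p (j + 1) ∧ φ b = P.p j))) with hS2
    have hE2 : ∀ j ∈ S2, ∃ a b c, E2 a b c ∧ w j ≤ c ∧
      ((φ a = P.p j ∧ φ b = P.p (j + 1)) ∨ (φ a = P.p (j + 1) ∧ φ b = P.p j)) := by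
      intro j hj
      rw [hS2, Finset.mem_filter] at hj
      obtain ⟨-, a, b, c, hE, hw, ho⟩ := hS j hj.1
      rcases hE with hE | hE
      · exact absurd ⟨a, b, c, hE, hw, ho⟩ hj.2
      · exact ⟨a, b, c, hE, hw, ho⟩
    have hmem : ∀ j, j ∈ S → j ∈ S1 ∨ j ∈ S2 := by
      intro j hj
      rw [hS1, hS2, Finset.mem_filter, Finset.mem_filter]
      by_cases h : ∃ a b c, E1 a b c ∧ w j ≤ c ∧
        ((φ a = P.p j ∧ φ b = P.p (j + 1)) ∨ (φ a = P.p (j + 1) ∧ φ b = P.p j))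
      · exact Or.inl ⟨hj, h⟩
      · exact Or.inr ⟨hj, h⟩
    -- an edge of `S1` at position `j` has its ends in `N1`
    have hv1 : ∀ j ∈ S1, (∃ a ∈ N1, φ a = P.p j) ∧ (∃ a ∈ N1, φ a = P.p (j + 1)) := by
      intro j hj
      rw [hS1, Finset.mem_filter] at hj
      obtain ⟨-, a, b, c, hE, -, ho⟩ := hj
      have := h1.2.1 a b c hE
      rcases ho with ⟨h3, h4⟩ | ⟨h3, h4⟩
      · exact ⟨⟨a, this.1, h3⟩, ⟨b, this.2, h4⟩⟩
      · exact ⟨⟨b, this.2, h4⟩, ⟨a, this.1, h3⟩⟩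
    have hv2 : ∀ j ∈ S2, (∃ a ∈ N2, φ a = P.p j) ∧ (∃ a ∈ N2, φ a = P.p (j + 1)) := by
      intro j hj
      obtain ⟨a, b, c, hE, -, ho⟩ := hE2 j hj
      have := h2.2.1 a b c hE
      rcases ho with ⟨h3, h4⟩ | ⟨h3, h4⟩
      · exact ⟨⟨a, this.1, h3⟩, ⟨b, this.2, h4⟩⟩
      · exact ⟨⟨b, this.2, h4⟩, ⟨a, this.1, h3⟩⟩
    have hA1 : Amb φ N1 E1 D1 P w S1 := by
      refine ⟨hinj.mono Set.subset_union_left, ?_, ?_⟩
      · intro j hj
        rw [hS1, Finset.mem_filter] at hj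
        exact ⟨(hS j hj.1).1, hj.2⟩
      · intro n hn hnD i hi hpi
        have hn2 : n ∉ N2 := fun h => hnD (hN n hn h).1
        have hnD' : n ∉ D1 ∪ D2 := by
          rintro (h | h)
          · exact hnD h
          · exact hn2 (h2.1 h)
        obtain ⟨hiS, j, hjS, hji⟩ := hpr n (Or.inl hn) hnD' i hi hpi
        constructor
        · rcases hmem i hiS with h | h
          · exact h
          · obtain ⟨a, ha, hpa⟩ := (hv2 i h).1
            have : a = n := hinj (Or.inr ha) (Or.inl hn) (by rw [hpa, hpi])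
            rw [this] at ha; exact absurd ha hn2
        · refine ⟨j, ?_, hji⟩
          rcases hmem j hjS with h | h
          · exact h
          · obtain ⟨a, ha, hpa⟩ := (hv2 j h).2
            have : a = n := hinj (Or.inr ha) (Or.inl hn) (by rw [hpa, hji, hpi])
            rw [this] at ha; exact absurd ha hn2
    have hA2 : Amb φ N2 E2 D2 P w S2 := by
      refine ⟨hinj.mono Set.subset_union_right, ?_, ?_⟩
      · intro j hj
        refine ⟨?_, hE2 j hj⟩
        rw [hS2, Finset.mem_filter] at hj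
        exact (hS j hj.1).1
      · intro n hn hnD i hi hpi
        have hn1 : n ∉ N1 := fun h => hnD (hN n h hn).2
        have hnD' : n ∉ D1 ∪ D2 := by
          rintro (h | h)
          · exact hn1 (h1.1 h)
          · exact hnD h
        obtain ⟨hiS, j, hjS, hji⟩ := hpr n (Or.inr hn) hnD' i hi hpi
        constructor
        · rcases hmem i hiS with h | h
          · obtain ⟨a, ha, hpa⟩ := (hv1 i h).1
            have : a = n := hinj (Or.inl ha) (Or.inr hn) (by rw [hpa, hpi])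
            rw [this] at ha; exact absurd ha hn1
          · exact h
        · refine ⟨j, ?_, hji⟩
          rcases hmem j hjS with h | h
          · obtain ⟨a, ha, hpa⟩ := (hv1 j h).2
            have : a = n := hinj (Or.inl ha) (Or.inr hn) (by rw [hpa, hji, hpi])
            rw [this] at ha; exact absurd ha hn1
          · exact h
    obtain ⟨e1, he1, hst1, hc1⟩ := h1.2.2 V φ P w S1 hA1
    obtain ⟨e2, he2, hst2, hc2⟩ := h2.2.2 V φ P w S2 hA2
    have hinjD : Set.InjOn φ (D1 ∪ D2) := hinj.mono (Set.union_subset_union h1.1 h2.1)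
    have hdis : ∀ j ∈ S1, j ∉ S2 := by
      intro j hj1 hj2
      rw [hS1, Finset.mem_filter] at hj1
      rw [hS2, Finset.mem_filter] at hj2
      exact hj2.2 hj1.2
    obtain ⟨ls, zs, hm, hst⟩ := mergeS_spec hinjD (hst1.monoD Set.subset_union_left)
      (hst2.monoD Set.subset_union_right) hdis
    have hSS : ∀ j, j ∈ S1 ∪ S2 ↔ j ∈ S := by
      intro j
      rw [Finset.mem_union]
      constructor
      · rintro (h | h)
        · rw [hS1, Finset.mem_filter] at h; exact h.1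
        · rw [hS2, Finset.mem_filter] at h; exact h.1
      · exact hmem j
    refine ⟨ls, zs, e1.c + e2.c, mergeT_spec T1 T2 [] e1 he1 e2 he2 ls zs hm,
      hst.congrS hSS, ?_⟩
    have hsum : ∑ j ∈ S, w j = ∑ j ∈ S1, w j + ∑ j ∈ S2, w j := by
      rw [hS1, hS2, Finset.sum_filter_add_sum_filter_not]
    omega

theorem Sound.forget {N : Set ℕ} {E : ℕ → ℕ → ℕ → Prop} {D : Set ℕ} {T : List Ent}
    (h : Sound N E D T) {n : ℕ} (hn : n ∈ D) : Sound N E (D \ {n}) (fgtT n T []) := by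
  refine Sound.ofDom (fun x hx => h.1 hx.1) h.2.1 ?_
  intro V φ P w S hA
  obtain ⟨hinj, hS, hpr⟩ := hA
  have hA' : Amb φ N E D P w S :=
    ⟨hinj, hS, fun m hm hmD => hpr m hm (fun h' => hmD h'.1)⟩
  obtain ⟨e, he, hst, hc⟩ := h.2.2 V φ P w S hA'
  have hcomp := hpr n (h.1 hn) (fun h' => h'.2 rfl)
  obtain ⟨h1, h2⟩ := forget_spec hst hcomp
  exact ⟨e.ls, delZ n e.zs, e.c, fgtT_spec n T [] e he h1, h2, hc⟩

/-- a single edge -/
def edgeT (a b c : ℕ) : List Ent := [⟨0, [], [], 0⟩, ⟨0, [(a, b)], [], c⟩]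

theorem Sound.edge {a b c : ℕ} (hab : a ≠ b) :
    Sound {n | n = a ∨ n = b} (fun x y z => x = a ∧ y = b ∧ z = c) {n | n = a ∨ n = b}
      (edgeT a b c) := by
  refine ⟨fun x hx => hx, ?_, ?_⟩
  · rintro x y z ⟨rfl, rfl, rfl⟩
    exact ⟨Or.inl rfl, Or.inr rfl⟩
  · intro V φ P w S hA
    obtain ⟨hinj, hS, -⟩ := hA
    rcases S.eq_empty_or_nonempty with rfl | ⟨j, hj⟩
    · refine ⟨⟨0, [], [], 0⟩, by simp [edgeT], ⟨⟨[], List.Forall₂.nil, ⟨by simp, by simp⟩, ?_⟩, by simp⟩, by simp⟩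
      intro j; simp
    · have hSj : ∀ j' ∈ S, j' = j := by
        intro j' hj'
        obtain ⟨hjK, a1, b1, c1, ⟨rfl, rfl, rfl⟩, -, ho⟩ := hS j hj
        obtain ⟨hjK', a2, b2, c2, ⟨rfl, rfl, rfl⟩, -, ho'⟩ := hS j' hj'
        rcases ho with ⟨h1, h2⟩ | ⟨h1, h2⟩ <;> rcases ho' with ⟨h3, h4⟩ | ⟨h3, h4⟩
        · exact P.inj _ _ (by omega) (by omega) (by rw [← h3, h1])
        · have e1 := P.inj (j' + 1) j (by omega) (by omega) (by rw [← h3, h1])
          have e2 := P.inj j' (j + 1) (by omega) (by omega) (by rw [← h4, h2])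
          omega
        · have e1 := P.inj j' (j + 1) (by omega) (by omega) (by rw [← h3, h1])
          have e2 := P.inj (j' + 1) j (by omega) (by omega) (by rw [← h4, h2])
          omega
        · exact P.inj _ _ (by omega) (by omega) (by rw [← h4, h2])
      have hSeq : S = {j} := by
        ext j'
        rw [Finset.mem_singleton]
        exact ⟨hSj j', fun h => by rw [h]; exact hj⟩
      obtain ⟨hjK, a1, b1, c1, ⟨rfl, rfl, rfl⟩, hwc, ho⟩ := hS j hj
      refine ⟨⟨0, [(a1, b1)], [], c1⟩, by simp [edgeT],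
        ⟨⟨[(j, j + 1)], ?_, ⟨?_, by simp⟩, ?_⟩, by simp⟩, ?_⟩
      · refine List.Forall₂.cons ⟨Or.inl rfl, Or.inr rfl, ?_⟩ List.Forall₂.nil
        exact ho
      · intro r hr
        rw [List.mem_singleton] at hr
        subst hr
        simp only; omega
      · intro j'
        rw [hSeq, Finset.mem_singleton]
        simp only [List.mem_singleton, exists_eq_left]
        omega
      · rw [hSeq, Finset.sum_singleton]; exact hwc

theorem Sound.empty : Sound ∅ (fun _ _ _ => False) ∅ [⟨0, [], [], 0⟩] := by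
  refine ⟨fun x hx => hx, by simp, ?_⟩
  intro V φ P w S hA
  have : S = ∅ := by
    rw [Finset.eq_empty_iff_forall_notMem]
    intro j hj
    obtain ⟨-, a, b, c, h, -⟩ := hA.2.1 j hj
    exact h
  subst this
  refine ⟨⟨0, [], [], 0⟩, by simp, ⟨⟨[], List.Forall₂.nil, ⟨by simp, by simp⟩, ?_⟩, by simp⟩, by simp⟩
  intro j; simp

/-! ### renaming by an offset -/

def offL (o : ℕ) : List (ℕ × ℕ) → List (ℕ × ℕ)
  | [] => []
  | (a, b) :: t => (a + o, b + o) :: offL o t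

def offZ (o : ℕ) : List ℕ → List ℕ
  | [] => []
  | a :: t => (a + o) :: offZ o t

def offT (o : ℕ) : List Ent → List Ent
  | [] => []
  | ⟨_, ls, zs, c⟩ :: t =>
    ⟨keyZ (keyL 0 (offL o ls)) (offZ o zs), offL o ls, offZ o zs, c⟩ :: offT o t

theorem mem_offZ (o : ℕ) (zs : List ℕ) (z : ℕ) : z ∈ offZ o zs ↔ ∃ y ∈ zs, y + o = z := by
  induction zs with
  | nil => simp [offZ]
  | cons a t ih =>
    show z ∈ (a + o) :: offZ o t ↔ _
    rw [List.mem_cons, ih]
    constructor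
    · rintro (h | ⟨y, hy, h⟩)
      · exact ⟨a, by simp, h.symm⟩
      · exact ⟨y, List.mem_cons_of_mem _ hy, h⟩
    · rintro ⟨y, hy, h⟩
      rcases List.mem_cons.1 hy with rfl | hy
      · exact Or.inl h.symm
      · exact Or.inr ⟨y, hy, h⟩

theorem mem_offT (o : ℕ) (T : List Ent) (e : Ent) (he : e ∈ T) :
    ∃ e' ∈ offT o T, e'.ls = offL o e.ls ∧ e'.zs = offZ o e.zs ∧ e'.c = e.c := by
  induction T with
  | nil => simp at he
  | cons f t ih =>
    obtain ⟨k, ls, zs, c⟩ := f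
    rcases List.mem_cons.1 he with rfl | he
    · exact ⟨_, List.mem_cons_self, rfl, rfl, rfl⟩
    · obtain ⟨e', he', h⟩ := ih he
      exact ⟨e', List.mem_cons_of_mem _ he', h⟩

theorem Sound.shift {N : Set ℕ} {E : ℕ → ℕ → ℕ → Prop} {D : Set ℕ} {T : List Ent}
    (h : Sound N E D T) (o : ℕ) :
    Sound {n | ∃ m ∈ N, m + o = n} (fun a b c => ∃ a' b', E a' b' c ∧ a' + o = a ∧ b' + o = b)
      {n | ∃ m ∈ D, m + o = n} (offT o T) := by
  refine ⟨?_, ?_, ?_⟩
  · rintro n ⟨m, hm, rfl⟩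
    exact ⟨m, h.1 hm, rfl⟩
  · rintro a b c ⟨a', b', hE, rfl, rfl⟩
    have := h.2.1 _ _ _ hE
    exact ⟨⟨a', this.1, rfl⟩, ⟨b', this.2, rfl⟩⟩
  · intro V φ P w S hA
    obtain ⟨hinj, hS, hpr⟩ := hA
    have hA' : Amb (fun n => φ (n + o)) N E D P w S := by
      refine ⟨?_, ?_, ?_⟩
      · intro x hx y hy hxy
        have := hinj (⟨x, hx, rfl⟩ : x + o ∈ {n | ∃ m ∈ N, m + o = n}) ⟨y, hy, rfl⟩ hxy
        omega
      · intro j hj
        obtain ⟨hjK, a, b, c, ⟨a', b', hE, rfl, rfl⟩, hw, ho⟩ := hS j hj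
        exact ⟨hjK, a', b', c, hE, hw, ho⟩
      · intro n hn hnD i hi hpi
        refine hpr (n + o) ⟨n, hn, rfl⟩ ?_ i hi hpi
        rintro ⟨m, hm, hmo⟩
        have : m = n := by omega
        rw [this] at hm; exact hnD hm
    obtain ⟨e, he, ⟨⟨rs, hM, hSep, hC⟩, hz⟩, hc⟩ := h.2.2 V _ P w S hA'
    obtain ⟨e', he', h1, h2, h3⟩ := mem_offT o T e he
    refine ⟨e', he', ⟨⟨rs, ?_, hSep, hC⟩, ?_⟩, by rw [h3]; exact hc⟩
    · rw [h1]
      clear h1 hSep hC hc
      generalize e.ls = L at hM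
      induction hM with
      | nil => exact List.Forall₂.nil
      | @cons l r _ _ hlr _ ih =>
        obtain ⟨u, v⟩ := l
        show List.Forall₂ _ ((u + o, v + o) :: offL o _) _
        refine List.Forall₂.cons ?_ ih
        exact ⟨⟨u, hlr.1, rfl⟩, ⟨v, hlr.2.1, rfl⟩, hlr.2.2⟩
    · intro z hzz
      rw [h2, mem_offZ] at hzz
      obtain ⟨y, hy, rfl⟩ := hzz
      exact hz y hy

end Pool.Agent.Helper67.LPath
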